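import Pool.Agent.Lib.MP_8f75c8_lc.Count
import Pool.Agent.Lib.Complexity.Bridge

/-!
The interval dynamic programme runs in polynomial time.
-/

namespace Pool.Agent.Lib.MP_8f75c8_lc

open Finset Pool.Agent.Lib.Complexity

def step (θ : ℕ → ℤ) (M : ℕ) (rows : List (List ℤ)) : List (List ℤ) :=
  rows ++ [(List.range (M + 1 - rows.length)).map fun i =>
    if rows.length = 0 then (1 : ℤ) else
      ((List.range (rows.length - 1)).map fun d =>
        if θ (i + 1 + d) = θ i + 1 then
          (rows.getD d []).getD (i + 1) 0 * (rows.getD (rows.length - 2 - d) []).getD (i + 2 + d) 0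
        else 0).sum]

noncomputable def tab (θ : ℕ → ℤ) (M k : ℕ) : List (List ℤ) :=
  (List.range k).map fun l => (List.range (M + 1 - l)).map fun i => (A θ i (i + l) : ℤ)

theorem tab_get (θ : ℕ → ℤ) (M k l i : ℕ) (hl : l < k) (hi : i + l ≤ M) :
    ((tab θ M k).getD l []).getD i 0 = A θ i (i + l) := by
  have e : (tab θ M k).getD l [] = (List.range (M + 1 - l)).map fun i => (A θ i (i + l) : ℤ) := by
    unfold tab
    rw [List.getD_eq_getElem _ _ (by simpa using hl)]
    simp
  rw [e, List.getD_eq_getElem _ _ (by simp; omega)]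
  simp

theorem tab_length (θ : ℕ → ℤ) (M k : ℕ) : (tab θ M k).length = k := by simp [tab]

theorem step_tab (θ : ℕ → ℤ) (M k : ℕ) : step θ M (tab θ M k) = tab θ M (k + 1) := by
  have e : tab θ M (k + 1) = tab θ M k ++
      [(List.range (M + 1 - k)).map fun i => (A θ i (i + k) : ℤ)] := by
    simp [tab, List.range_succ]
  rw [e, step, tab_length]
  congr 2
  refine List.map_congr_left fun i hi => ?_
  have hi := List.mem_range.1 hi
  split_ifs with h
  · subst h; simp [A_self]
  · rw [A_rec θ (by omega : i < i + k), sum_Ico_eq_sum_range, show i + k - (i + 1) = k - 1 by omega,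
      Nat.cast_sum, ← List.sum_toFinset _ List.nodup_range, List.toFinset_range]
    refine sum_congr rfl fun d hd => ?_
    have hd := mem_range.1 hd
    split_ifs with h2
    · rw [tab_get _ _ _ _ _ (by omega) (by omega), tab_get _ _ _ _ _ (by omega) (by omega)]
      rw [show i + 2 + d + (k - 2 - d) = i + k by omega, show i + 2 + d = i + 1 + d + 1 by omega]
      simp
    · simp

theorem iter_step (θ : ℕ → ℤ) (M k : ℕ) : (step θ M)^[k] [] = tab θ M k := by
  induction k with
  | zero => simp [tab]
  | succ k ih => rw [Function.iterate_succ_apply', ih, step_tab]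

theorem sz_tab (θ : ℕ → ℤ) (M k : ℕ) (hk : k ≤ M + 1) :
    sz (tab θ M k) ≤ (M + 1) * ((M + 1) * (4 * (M * M + 1) + 2) + 1) := by
  have h1 : ∀ r ∈ tab θ M k, sz r ≤ (M + 1) * (4 * (M * M + 1) + 2) := by
    intro r hr
    obtain ⟨l, _, rfl⟩ := List.mem_map.1 hr
    refine (sz_list_le (B := 4 * (M * M + 1) + 1) fun a ha => ?_).trans ?_
    · obtain ⟨i, hi, rfl⟩ := List.mem_map.1 ha
      have hi := List.mem_range.1 hi
      apply sz_int_le
      rw [Int.natAbs_natCast]
      calc A θ i (i + l) ≤ (i + l) ^ (i + l) := A_le _ _ _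
        _ ≤ (2 ^ M) ^ (i + l) := Nat.pow_le_pow_left (by
            have := Nat.lt_two_pow_self (n := M); omega) _
        _ ≤ (2 ^ M) ^ M := Nat.pow_le_pow_right (by positivity) (by omega)
        _ < 2 ^ (M * M + 1) := by
            rw [← pow_mul]; exact Nat.pow_lt_pow_right (by omega) (by omega)
    · apply Nat.mul_le_mul_right
      simp
  refine (sz_list_le h1).trans ?_
  rw [tab_length]
  exact Nat.mul_le_mul_right _ hk

@[fun_prop] theorem pt_low {α : Type} [Enc α] {s : α → List Bool} {p g : α → ℕ} (hs : PT s)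
    (hp : PT p) (hg : PT g) : PT fun a => low (th (s a) (p a)) (g a) := by
  unfold low th U seg rot
  fun_prop

def cnt (a : List Bool × ℕ) : ℤ :=
  (((step (low (th a.1 a.2)) (2 * a.1.length + 2))^[2 * a.1.length + 2 + 1] []).getD
    (2 * a.1.length + 2) []).getD 0 0

theorem pt_cnt : PT cnt := by
  have hM : PB (sz (α := List Bool × ℕ)) fun a => 2 * a.1.length + 2 :=
    PT.pb_nat (by fun_prop)
  have := PT.iterate (α := List Bool × ℕ) (n := fun a => 2 * a.1.length + 2 + 1)
    (init := fun _ => ([] : List (List ℤ)))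
    (step := fun a => step (low (th a.1 a.2)) (2 * a.1.length + 2)) (by fun_prop) (by fun_prop)
    (by unfold step; fun_prop)
    (((hM.add (PB.const 1)).mul (((hM.add (PB.const 1)).mul (((PB.const 4).mul
      ((hM.mul hM).add (PB.const 1))).add (PB.const 2))).add (PB.const 1))))
    (fun a i hi => by rw [iter_step]; exact sz_tab _ _ _ hi.le)
  unfold cnt
  exact (this.getD (by fun_prop) (PT.const _)).getD (PT.const _) (PT.const _)

theorem cnt_eq (s : List Bool) (p : ℕ) : cnt (s, p) = A (low (th s p)) 0 (2 * s.length + 2) := by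
  unfold cnt
  rw [iter_step, tab_get _ _ _ _ _ (by simp) (by simp)]
  simp

def alg (s : List Bool) : ℤ := ((List.range (s.length + 1)).map fun r => cnt (s, 2 * r)).sum

theorem pt_alg : PT alg := by
  have := pt_cnt
  unfold alg
  fun_prop

theorem main : Nonempty (Turing.TM2ComputableInPolyTime (fun s : List Bool => s)
    Computability.encodeNat
    fun s : List Bool => Nat.card {h : Equiv.Perm (Fin (s.length + 1)) // Folded s h}) := by
  refine tm2_of_str (F := fun s => (alg s).toNat.bits) (PT.toNat_bits pt_alg) fun s => ?_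
  rw [encodeNat_eq, count_eq]
  congr 1
  unfold alg
  simp only [cnt_eq]
  rw [← List.sum_toFinset _ List.nodup_range, List.toFinset_range, ← Nat.cast_sum, Int.toNat_natCast]

end Pool.Agent.Lib.MP_8f75c8_lc
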