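import Mathlib

/-!
Counting non-crossing matchings of an interval that raise a potential by one.
-/

namespace Pool.Agent.Lib.MP_8f75c8_lc

open Finset

def Valid (θ : ℕ → ℤ) (i j : ℕ) (μ : ℕ → ℕ) : Prop :=
  (∀ y, (y < i ∨ j ≤ y) → μ y = y) ∧ ∀ y, i ≤ y → y < j →
    i ≤ μ y ∧ μ y < j ∧ μ (μ y) = y ∧ μ y ≠ y ∧ (y < μ y → θ (μ y) = θ y + 1) ∧
      ∀ z, y < z → z < μ y → y < μ z ∧ μ z < μ y

theorem Valid.lt {θ : ℕ → ℤ} {i j : ℕ} {μ : ℕ → ℕ} (h : Valid θ i j μ) {y : ℕ} (hy : y < j) :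
    μ y < j := by
  by_cases h1 : y < i
  · rw [h.1 y (Or.inl h1)]; exact hy
  · exact (h.2 y (by omega) hy).2.1

def toFin (θ : ℕ → ℤ) (i j : ℕ) (μ : {μ // Valid θ i j μ}) : Fin j → Fin j :=
  fun y => ⟨μ.1 y, μ.2.lt y.2⟩

theorem toFin_inj (θ : ℕ → ℤ) (i j : ℕ) : Function.Injective (toFin θ i j) := by
  intro a b e
  apply Subtype.ext
  funext y
  by_cases h : y < j
  · exact congrArg Fin.val (congrFun e ⟨y, h⟩)
  · rw [a.2.1 y (Or.inr (by omega)), b.2.1 y (Or.inr (by omega))]

theorem valid_finite (θ : ℕ → ℤ) (i j : ℕ) : {μ | Valid θ i j μ}.Finite :=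
  Finite.of_injective _ (toFin_inj θ i j)

noncomputable def VS (θ : ℕ → ℤ) (i j : ℕ) : Finset (ℕ → ℕ) := (valid_finite θ i j).toFinset

theorem mem_VS {θ : ℕ → ℤ} {i j : ℕ} {μ : ℕ → ℕ} : μ ∈ VS θ i j ↔ Valid θ i j μ := by
  simp [VS]

noncomputable def A (θ : ℕ → ℤ) (i j : ℕ) : ℕ := (VS θ i j).card

theorem A_le (θ : ℕ → ℤ) (i j : ℕ) : A θ i j ≤ j ^ j := by
  have : A θ i j = Nat.card {μ // Valid θ i j μ} := by
    rw [A, VS, ← Nat.card_eq_card_finite_toFinset]; rfl
  rw [this]
  simpa using Nat.card_le_card_of_injective _ (toFin_inj θ i j)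

theorem A_self (θ : ℕ → ℤ) (i : ℕ) : A θ i i = 1 := by
  rw [A, card_eq_one]
  refine ⟨fun y => y, ?_⟩
  ext μ
  rw [mem_VS, mem_singleton]
  constructor
  · intro h; funext y; exact h.1 y (by omega)
  · rintro rfl
    exact ⟨fun _ _ => rfl, fun y _ _ => by omega⟩

def res (a b : ℕ) (μ : ℕ → ℕ) : ℕ → ℕ := fun y => if a ≤ y ∧ y < b then μ y else y

def glue (i k : ℕ) (μ ν : ℕ → ℕ) : ℕ → ℕ :=
  fun y => if y = i then k else if y = k then i else if y < k then μ y else ν y

theorem res_valid {θ : ℕ → ℤ} {i j a b : ℕ} {μ : ℕ → ℕ} (h : Valid θ i j μ) (ha : i ≤ a)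
    (hb : b ≤ j) (hc : ∀ y, a ≤ y → y < b → a ≤ μ y ∧ μ y < b) : Valid θ a b (res a b μ) := by
  refine ⟨fun y hy => by unfold res; rw [if_neg (by omega)], fun y h1 h2 => ?_⟩
  have e : res a b μ y = μ y := by unfold res; rw [if_pos ⟨h1, h2⟩]
  have c := hc y h1 h2
  have v := h.2 y (by omega) (by omega)
  rw [e]
  refine ⟨c.1, c.2, ?_, v.2.2.2.1, v.2.2.2.2.1, fun z z1 z2 => ?_⟩
  · unfold res; rw [if_pos c]; exact v.2.2.1
  · have : res a b μ z = μ z := by unfold res; rw [if_pos (by omega)]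
    rw [this]; exact v.2.2.2.2.2 z z1 z2

theorem glue_valid {θ : ℕ → ℤ} {i j k : ℕ} {μ ν : ℕ → ℕ} (h1 : i < k) (h2 : k < j)
    (hθ : θ k = θ i + 1) (hμ : Valid θ (i + 1) k μ) (hν : Valid θ (k + 1) j ν) :
    Valid θ i j (glue i k μ ν) := by
  have e1 : glue i k μ ν i = k := by simp [glue]
  have e2 : glue i k μ ν k = i := by unfold glue; rw [if_neg (by omega), if_pos rfl]
  have e3 : ∀ y, i < y → y < k → glue i k μ ν y = μ y := fun y a b => by
    unfold glue; rw [if_neg (by omega), if_neg (by omega), if_pos b]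
  have e4 : ∀ y, k < y → glue i k μ ν y = ν y := fun y a => by
    unfold glue; rw [if_neg (by omega), if_neg (by omega), if_neg (by omega)]
  refine ⟨fun y hy => ?_, fun y a b => ?_⟩
  · rcases hy with hy | hy
    · unfold glue; rw [if_neg (by omega), if_neg (by omega), if_pos (by omega)]
      exact hμ.1 y (by omega)
    · rw [e4 y (by omega)]; exact hν.1 y (by omega)
  · rcases lt_trichotomy y k with c | rfl | c
    · rcases a.eq_or_lt with rfl | a
      · rw [e1, e2]
        refine ⟨by omega, h2, rfl, by omega, fun _ => hθ, fun z z1 z2 => ?_⟩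
        rw [e3 z z1 z2]
        have := hμ.2 z z1 z2
        omega
      · have v := hμ.2 y a c
        rw [e3 y a c, e3 _ v.1 v.2.1]
        refine ⟨by omega, by omega, v.2.2.1, v.2.2.2.1, v.2.2.2.2.1, fun z z1 z2 => ?_⟩
        rw [e3 z (by omega) (by omega)]
        exact v.2.2.2.2.2 z z1 z2
    · rw [e2, e1]
      exact ⟨le_rfl, by omega, rfl, by omega, by omega, fun z z1 z2 => by omega⟩
    · have v := hν.2 y c b
      rw [e4 y c, e4 _ v.1]
      refine ⟨by omega, by omega, v.2.2.1, v.2.2.2.1, v.2.2.2.2.1, fun z z1 z2 => ?_⟩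
      rw [e4 z (by omega)]
      exact v.2.2.2.2.2 z z1 z2

theorem A_rec (θ : ℕ → ℤ) {i j : ℕ} (hij : i < j) :
    A θ i j = ∑ k ∈ Ico (i + 1) j, if θ k = θ i + 1 then A θ (i + 1) k * A θ (k + 1) j else 0 := by
  classical
  rw [A, card_eq_sum_card_fiberwise (f := fun μ => μ i) (t := Ico (i + 1) j)]
  · refine sum_congr rfl fun k hk => ?_
    have hk := mem_Ico.1 hk
    split_ifs with hθ
    · rw [A, A, ← card_product]
      refine card_bij' (fun μ _ => (res (i + 1) k μ, res (k + 1) j μ))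
        (fun p _ => glue i k p.1 p.2) ?_ ?_ ?_ ?_
      · intro μ hμ
        rw [mem_filter, mem_VS] at hμ
        obtain ⟨hv, e⟩ := hμ
        have v := hv.2 i le_rfl hij
        rw [e] at v
        rw [mem_product, mem_VS, mem_VS]
        refine ⟨res_valid hv (by omega) (by omega) fun y a b => ?_,
          res_valid hv (by omega) le_rfl fun y a b => ?_⟩
        · exact v.2.2.2.2.2 y a b
        · have w := hv.2 y (by omega) b
          refine ⟨?_, w.2.1⟩
          by_contra hc
          have c1 : μ y ≠ i := fun c => by have := w.2.2.1; rw [c, e] at this; omega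
          have c2 : μ y ≠ k := fun c => by have := w.2.2.1; rw [c, v.2.2.1] at this; omega
          have := v.2.2.2.2.2 (μ y) (by omega) (by omega)
          rw [w.2.2.1] at this
          omega
      · intro p hp
        rw [mem_product, mem_VS, mem_VS] at hp
        rw [mem_filter, mem_VS]
        exact ⟨glue_valid hk.1 hk.2 hθ hp.1 hp.2, by simp [glue]⟩
      · intro μ hμ
        rw [mem_filter, mem_VS] at hμ
        obtain ⟨hv, e⟩ := hμ
        have v := hv.2 i le_rfl hij
        rw [e] at v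
        funext y
        simp only [glue, res]
        have := hv.1 y
        split_ifs <;> first | omega | simp_all
      · intro p hp
        rw [mem_product, mem_VS, mem_VS] at hp
        ext y
        · simp only [glue, res]
          have := hp.1.1 y
          split_ifs <;> omega
        · simp only [glue, res]
          have := hp.2.1 y
          split_ifs <;> omega
    · rw [card_eq_zero, filter_eq_empty_iff]
      intro μ hμ e
      have v := (mem_VS.1 hμ).2 i le_rfl hij
      rw [e] at v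
      exact hθ (v.2.2.2.2.1 hk.1)
  · intro μ hμ
    have v := (mem_VS.1 (mem_coe.1 hμ)).2 i le_rfl hij
    simp only [coe_Ico, Set.mem_Ico]
    omega

theorem card_eq_of_rel {α β : Type} (s : Finset α) (t : Finset β) (R : α → β → Prop)
    (h1 : ∀ a ∈ s, ∃ b ∈ t, R a b) (h2 : ∀ b ∈ t, ∃ a ∈ s, R a b)
    (h3 : ∀ a b b', R a b → R a b' → b = b') (h4 : ∀ a a' b, R a b → R a' b → a = a') :
    s.card = t.card := by
  choose f hf using h1
  refine card_bij f (fun a ha => (hf a ha).1) ?_ ?_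
  · intro a ha a' ha' e
    exact h4 a a' _ (hf a ha).2 (e ▸ (hf a' ha').2)
  · intro b hb
    obtain ⟨a, ha, r⟩ := h2 b hb
    exact ⟨a, ha, h3 a _ _ (hf a ha).2 r⟩

end Pool.Agent.Lib.MP_8f75c8_lc
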