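import Pool.Agent.Lib.MP_8f75c8_lc.Loop
import Pool.Agent.Lib.MP_8f75c8_lc.Match

/-!
Meanders with prescribed turning correspond to matchings that raise the potential by one.
-/

namespace Pool.Agent.Lib.MP_8f75c8_lc

open Finset

def par (M τ : ℕ) : ℕ :=
  if τ % 2 = 1 then (if τ + 1 < M then τ + 1 else 0) else (if τ = 0 then M - 1 else τ - 1)

def low (θ : ℕ → ℤ) (g : ℕ) : ℤ := if g = 0 then θ 0 - 2 else θ g

theorem fwd {M : ℕ} (he : M % 2 = 0) (h0 : 0 < M) {t : ℕ → ℕ} (hlt : ∀ g < M, t g < M)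
    (hinj : ∀ a < M, ∀ b < M, t a = t b → a = b) (hsurj : ∀ τ < M, ∃ g < M, t g = τ)
    (ht0 : t 0 = M - 1) (hp : ∀ g < M, (t g + g) % 2 = 1) (hM : Mea M t) (θ : ℕ → ℤ)
    (hθ : ∀ g, g + 1 < M → θ (g + 1) = θ g + if t g < t (g + 1) then sg g else - sg g) :
    ∃ μ, Valid (low θ) 0 M μ ∧ ∀ g < M, t (μ g) = par M (t g) := by
  choose! x' hx' using hsurj
  obtain ⟨x, hxM, hx⟩ : ∃ x : ℕ → ℕ, x M = x 0 ∧ ∀ τ < M, x τ < M ∧ t (x τ) = τ :=
    ⟨fun τ => x' (if τ < M then τ else 0), by simp [h0], fun τ h => by simpa [h] using hx' τ h⟩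
  have ht : ∀ g < M, t g < M ∧ x (t g) = g := fun g hg =>
    ⟨hlt g hg, hinj _ (hx _ (hlt g hg)).1 _ hg (hx _ (hlt g hg)).2⟩
  have hX := duality hM ht hx hp he hxM
  have hxinj : ∀ a < M, ∀ b < M, x a = x b → a = b := fun a ha b hb e => by
    rw [← (hx a ha).2, e, (hx b hb).2]
  have hxl : x (M - 1) = 0 := by rw [← ht0]; exact (ht 0 h0).2
  have hpot := pot_eq hM hinj (fun τ h _ => by
    have := hlt τ (by omega); have := hlt (τ + 1) h; unfold Btw; omega) θ hθ
  have hstep : ∀ τ, τ + 1 < M → D x (τ + 1) = D x τ + if x τ < x (τ + 1) then sg τ else 0 :=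
    fun τ h => D_step hX hxinj h fun h1 => by
      have := hX τ (by omega) (M - 1) (by omega) (by omega)
      rw [show M - 1 + 1 = M by omega, hxM, hxl] at this
      rw [← this]; unfold Btw; omega
  have hparlt : ∀ τ < M, par M τ < M := fun τ h => by unfold par; split_ifs <;> omega
  obtain ⟨μ, hμ1, hμ2⟩ : ∃ μ : ℕ → ℕ, (∀ g, M ≤ g → μ g = g) ∧ ∀ g < M, μ g = x (par M (t g)) :=
    ⟨fun g => if g < M then x (par M (t g)) else g, fun g h => by simp; omega,
      fun g h => by simp [h]⟩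
  have hμt : ∀ g < M, μ g < M ∧ t (μ g) = par M (t g) := fun g h => by
    rw [hμ2 g h]; exact hx _ (hparlt _ (hlt g h))
  have hch : ∀ g < M, ∃ σ < M, σ % 2 = 1 ∧
      ((x σ = g ∧ x (σ + 1) = μ g) ∨ (x σ = μ g ∧ x (σ + 1) = g)) := by
    intro g hg
    have a := ht g hg
    rw [hμ2 g hg]
    unfold par
    split_ifs with c1 c2 c3
    · exact ⟨t g, a.1, c1, Or.inl ⟨a.2, rfl⟩⟩
    · exact ⟨t g, a.1, c1, Or.inl ⟨a.2, by rw [show t g + 1 = M by omega, hxM]⟩⟩
    · refine ⟨M - 1, by omega, by omega, Or.inr ⟨rfl, ?_⟩⟩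
      rw [show M - 1 + 1 = M by omega, hxM, ← c3, a.2]
    · refine ⟨t g - 1, by omega, by omega, Or.inr ⟨rfl, ?_⟩⟩
      rw [show t g - 1 + 1 = t g by omega, a.2]
  refine ⟨μ, ⟨fun y hy => hμ1 y (by omega), fun y _ hy => ?_⟩, fun g hg => (hμt g hg).2⟩
  have a := hμt y hy
  have a' := ht y hy
  refine ⟨by omega, a.1, ?_, ?_, ?_, ?_⟩
  · apply hinj _ (hμt _ a.1).1 _ hy
    rw [(hμt _ a.1).2, a.2]
    obtain ⟨k, hk⟩ : ∃ k, par M (t y) = k := ⟨_, rfl⟩
    rw [hk]
    unfold par at hk ⊢; split_ifs at hk ⊢ <;> omega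
  · intro e
    have := a.2
    rw [e] at this
    unfold par at this; split_ifs at this <;> omega
  · intro hlt'
    have p1 := hpot y hy
    have p2 := hpot _ a.1
    have d1 := D_dual ht hx hp hy
    have d2 := D_dual ht hx hp a.1
    have q1 := hp y hy
    have q2 := hp _ a.1
    have e := a.2
    unfold low
    rw [if_neg (by omega)]
    unfold par at e
    split_ifs at e with c1 c2 c3
    · have s := hstep (t y) c2
      rw [← e, a'.2, (ht _ a.1).2, if_pos hlt'] at s
      have : y ≠ 0 := by rintro rfl; omega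
      unfold sg at s
      split_ifs at * <;> omega
    · have : y = 0 := hinj _ hy _ h0 (by omega)
      subst this
      rw [e] at d2
      have : D x 0 = 0 := by simp [D]
      split_ifs at * <;> omega
    · have : μ y = 0 := hinj _ a.1 _ h0 (by omega)
      omega
    · have s := hstep (t (μ y)) (by omega)
      rw [show t (μ y) + 1 = t y by omega, a'.2, (ht _ a.1).2, if_neg (by omega)] at s
      have : y ≠ 0 := by rintro rfl; omega
      split_ifs at * <;> omega
  · intro z z1 z2
    obtain ⟨σ, s1, s2, s3⟩ := hch y hy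
    obtain ⟨σ', r1, r2, r3⟩ := hch z (by omega)
    have := hX σ s1 σ' r1 (by omega)
    unfold Btw at this
    omega

theorem Valid.nc {M : ℕ} {θ : ℕ → ℤ} {μ : ℕ → ℕ} (h : Valid θ 0 M μ) (c : ℤ)
    (hp : ∀ g < M, (θ g + g) % 2 = c) : NC M μ := by
  intro y hy
  have v := h.2 y (by omega) hy
  have w := h.2 (μ y) (by omega) v.2.1
  rw [v.2.2.1] at w
  refine ⟨v.2.1, v.2.2.1, ?_, fun z hz => ?_⟩
  · have p1 := hp y hy
    have p2 := hp _ v.2.1
    have := v.2.2.2.1
    have := v.2.2.2.2.1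
    have := w.2.2.2.2.1
    omega
  · rcases hz with hz | hz
    · exact Or.inl (v.2.2.2.2.2 z hz.1 hz.2)
    · exact Or.inr (w.2.2.2.2.2 z hz.1 hz.2)

theorem bwd {M : ℕ} (he : M % 2 = 0) (h0 : 0 < M) {ι μ : ℕ → ℕ} (hι : NC M ι) (θ : ℕ → ℤ)
    (h1 : ∀ y < M, θ (ι y) = θ y + if y < ι y then -1 else 1) (c : ℤ)
    (hθp : ∀ g < M, (θ g + g) % 2 = c) (hθM : θ M = θ 0 - 2) (hv : Valid (low θ) 0 M μ) :
    ∃ t : ℕ → ℕ, (∀ g < M, t g < M) ∧ (∀ a < M, ∀ b < M, t a = t b → a = b) ∧ t 0 = M - 1 ∧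
      t M = t 0 ∧ (∀ g < M, (t g + g) % 2 = 1) ∧ Mea M t ∧
      (∀ g < M, θ (g + 1) = θ g + if t g < t (g + 1) then sg g else - sg g) ∧
      (∀ g < M, t (μ g) = par M (t g)) ∧ ∀ g < M, t (ι g) / 2 = t g / 2 := by
  have hμ : NC M μ := hv.nc c fun g hg => by
    have := hθp g hg
    unfold low; split_ifs with h
    · subst h; omega
    · exact this
  have h2 : ∀ y < M, y ≠ 0 → μ y ≠ 0 → θ (μ y) = θ y + if y < μ y then 1 else -1 := by
    intro y hy a b
    have v := hv.2 y (by omega) hy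
    have w := hv.2 (μ y) (by omega) v.2.1
    rw [v.2.2.1] at w
    have := v.2.2.2.1
    have e1 := v.2.2.2.2.1
    have e2 := w.2.2.2.2.1
    unfold low at e1 e2
    rw [if_neg a, if_neg b] at e1 e2
    split_ifs <;> omega
  have hq := hμ 0 h0
  have hθq : θ (μ 0) = θ 0 - 1 := by
    have := (hv.2 0 le_rfl h0).2.2.2.2.1 (by omega)
    unfold low at this
    rw [if_neg (by omega), if_pos rfl] at this
    omega
  obtain ⟨hxM, hxinj, hsurj⟩ := single_loop hι hμ h0 θ h1 h2
  have hX := walk_mea hι hμ hq.1 M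
  have hxlt := walk_lt hι hμ hq.1
  have hxs := walk_succ (ι := ι) (μ := μ) (z := μ 0)
  have hx0 : walk ι μ (μ 0) 0 = μ 0 := rfl
  generalize walk ι μ (μ 0) = x at *
  choose! t' ht' using hsurj
  obtain ⟨t, htM, ht⟩ : ∃ t : ℕ → ℕ, t M = t 0 ∧ ∀ g < M, t g < M ∧ x (t g) = g :=
    ⟨fun τ => t' (if τ < M then τ else 0), by simp [h0], fun τ h => by simpa [h] using ht' τ h⟩
  have hx : ∀ τ < M, x τ < M ∧ t (x τ) = τ := fun τ h =>
    ⟨(hxlt τ).1, hxinj _ (ht _ (hxlt τ).1).1 _ h (ht _ (hxlt τ).1).2⟩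
  have hinj : ∀ a < M, ∀ b < M, t a = t b → a = b := fun a ha b hb e => by
    rw [← (ht a ha).2, e, (ht b hb).2]
  have hxp : ∀ τ < M, (x τ + τ) % 2 = 1 := fun τ _ => by have := (hxlt τ).2; omega
  have hp : ∀ g < M, (t g + g) % 2 = 1 := fun g hg => by
    have := hxp _ (ht g hg).1
    rw [(ht g hg).2] at this
    omega
  have hM := duality hX hx ht hxp he htM
  have hxl : x (M - 1) = 0 := by
    have := hxs (M - 1)
    rw [show M - 1 + 1 = M by omega, hxM, if_neg (by omega)] at this
    rw [← (hμ _ (hxlt (M - 1)).1).2.1, ← this, hq.2.1]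
  have ht0 : t 0 = M - 1 := by rw [← hxl]; exact (hx _ (by omega)).2
  have hpot := pot_eq hX hxinj (fun τ h h1 => by
      have := hX τ (by omega) (M - 1) (by omega) (by omega)
      rw [show M - 1 + 1 = M by omega, hxM, hxl] at this
      rw [hx0, ← this]; unfold Btw; omega) (fun τ => - θ (x τ)) (fun τ h => by
      have a1 := h1 _ (hxlt τ).1
      have a2 := h2 _ (hxlt τ).1 
      have a3 := hxs τ
      have a4 : τ % 2 = 1 → x τ ≠ 0 := fun _ e => by
        have := hxinj τ (by omega) (M - 1) (by omega) (by rw [e, hxl]); omega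
      have a5 : τ % 2 = 1 → x (τ + 1) ≠ 0 := fun _ e => by
        have := hxinj (τ + 1) (by omega) (M - 1) (by omega) (by rw [e, hxl]); omega
      unfold sg
      split_ifs at a3 with c
      · rw [← a3] at a1
        split_ifs at a1 ⊢ <;> omega
      · rw [← a3] at a2
        have a2 := a2 (a4 (by omega)) (a5 (by omega))
        split_ifs at a2 ⊢ <;> omega)
  have hth : ∀ g < M, θ g = θ 0 + 2 * D t g - if g % 2 = 0 then 0 else 1 := by
    intro g hg
    have a := hpot _ (ht g hg).1
    simp only [(ht g hg).2, hx0, D_dual ht hx hp hg, hθq] at a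
    have := hp g hg
    split_ifs at a ⊢ <;> omega
  refine ⟨t, fun g hg => (ht g hg).1, hinj, ht0, htM, hp, hM, ?_, ?_, ?_⟩
  · intro g hg
    by_cases h : g + 1 < M
    · rw [hth g hg, hth _ h, D_step hM hinj h fun _ => by
        have := (ht g hg).1; have := (ht _ h).1; unfold Btw; omega]
      unfold sg
      split_ifs <;> omega
    · have e : g + 1 = M := by omega
      have d := D_dual ht hx hp hg
      have : D x (t g) = 0 := by
        have := pair_sum' (fun _ => True) 0 (t g) (by have := hp g hg; omega) (by simp)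
        unfold D
        rw [← this, range_eq_Ico]
        refine sum_congr rfl fun z hz => ?_
        have hz := mem_Ico.1 hz
        have a := ht g hg
        have b := hx z (by omega)
        have : x z ≠ g := fun e => by rw [e] at b; omega
        rw [a.2, if_pos (by omega), if_pos trivial]
      have a := hp g hg
      have b := (ht g hg).1
      rw [e, hθM, hth g hg, htM, ht0]
      unfold sg
      split_ifs <;> omega
  · intro g hg
    have a := ht g hg
    unfold par
    split_ifs with c1 c2 c3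
    · have := hxs (t g)
      rw [if_neg (by omega), a.2] at this
      rw [← this, (hx _ c2).2]
    · have := hxs (t g)
      rw [if_neg (by omega), a.2, show t g + 1 = M by omega, hxM, ← hx0] at this
      rw [← this, (hx _ h0).2]
    · have : g = μ 0 := by rw [← a.2, c3, hx0]
      rw [this, hq.2.1, ht0]
    · have := hxs (t g - 1)
      rw [if_neg (by omega), show t g - 1 + 1 = t g by omega, a.2] at this
      rw [this, (hμ _ (hxlt _).1).2.1, ← this, (hx _ (by omega)).2]
  · intro g hg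
    have a := ht g hg
    by_cases c : t g % 2 = 0
    · have := hxs (t g)
      rw [if_pos c, a.2] at this
      rw [← this, (hx _ (by omega)).2]
      omega
    · have := hxs (t g - 1)
      rw [if_pos (by omega), show t g - 1 + 1 = t g by omega, a.2] at this
      rw [this, (hι _ (hxlt _).1).2.1, ← this, (hx _ (by omega)).2]
      omega

theorem uniq {M : ℕ} (he : M % 2 = 0) (h0 : 0 < M) {ι μ t t' : ℕ → ℕ} (hι : NC M ι)
    (hμ : ∀ g < M, μ g < M) (hlt : ∀ g < M, t g < M) (hlt' : ∀ g < M, t' g < M)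
    (hinj : ∀ a < M, ∀ b < M, t a = t b → a = b)
    (hp : ∀ g < M, (t g + g) % 2 = 1) (hp' : ∀ g < M, (t' g + g) % 2 = 1)
    (ht0 : t 0 = M - 1) (ht0' : t' 0 = M - 1)
    (h1 : ∀ g < M, t (μ g) = par M (t g)) (h1' : ∀ g < M, t' (μ g) = par M (t' g))
    (h2 : ∀ g < M, t (ι g) / 2 = t g / 2) (h2' : ∀ g < M, t' (ι g) / 2 = t' g / 2) :
    ∀ g < M, t' g = t g := by
  have key : ∀ τ, ∀ g < M, t g = τ → t' g = τ := by
    intro τ
    induction τ with
    | zero =>
      intro g hg e
      have a := h1 g hg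
      have b := h1' g hg
      have : μ g = 0 := hinj _ (hμ g hg) _ h0 (by rw [a, e, ht0]; simp [par])
      rw [this, ht0'] at b
      have := hlt' g hg
      unfold par at b
      split_ifs at b <;> omega
    | succ τ ih =>
      intro g hg e
      have := hlt g hg
      have := hlt' g hg
      have := hp g hg
      have := hp' g hg
      by_cases c : τ % 2 = 0
      · have a := h2 g hg
        have b := h2' g hg
        have i1 := hι g hg
        have := hp _ i1.1
        have := ih _ i1.1 (by omega)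
        omega
      · have a := h1 g hg
        have b := h1' g hg
        have := ih _ (hμ g hg) (by rw [a]; unfold par; split_ifs <;> omega)
        unfold par at b
        split_ifs at b <;> omega
  exact fun g hg => key _ g hg rfl

end Pool.Agent.Lib.MP_8f75c8_lc
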