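import Pool.Agent.Lib.MP_8f75c8_lc.Fold

/-!
The counting formula.
-/

namespace Pool.Agent.Lib.MP_8f75c8_lc

open Finset

def Folded (s : List Bool) (h : Equiv.Perm (Fin (s.length + 1))) : Prop :=
  (∀ i j : Fin s.length, i ≠ j → i.val % 2 = j.val % 2 →
    ¬ (min (h i.castSucc) (h i.succ) < min (h j.castSucc) (h j.succ) ∧
      min (h j.castSucc) (h j.succ) < max (h i.castSucc) (h i.succ) ∧
      max (h i.castSucc) (h i.succ) < max (h j.castSucc) (h j.succ))) ∧
  ∀ i : Fin s.length, (s.get i = true ↔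
    if i.val % 2 = 0 then h i.castSucc < h i.succ else h i.succ < h i.castSucc)

def posOf {n : ℕ} (h : Equiv.Perm (Fin (n + 1))) (i : ℕ) : ℕ :=
  if hi : i < n + 1 then (h ⟨i, hi⟩).val else 0

theorem posOf_val {n : ℕ} (h : Equiv.Perm (Fin (n + 1))) (i : Fin (n + 1)) :
    posOf h i = (h i).val := by
  unfold posOf; rw [dif_pos i.2]

theorem posOf_le {n : ℕ} (h : Equiv.Perm (Fin (n + 1))) : ∀ a ≤ n, posOf h a ≤ n := by
  intro a ha
  have := posOf_val h ⟨a, by omega⟩
  have := (h ⟨a, by omega⟩).2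
  simp only at *
  omega

theorem posOf_inj {n : ℕ} (h : Equiv.Perm (Fin (n + 1))) :
    ∀ a ≤ n, ∀ b ≤ n, posOf h a = posOf h b → a = b := by
  intro a ha b hb e
  have h1 := posOf_val h ⟨a, by omega⟩
  have h2 := posOf_val h ⟨b, by omega⟩
  simp only at h1 h2
  rw [h1, h2] at e
  exact congrArg Fin.val (h.injective (Fin.ext e))

theorem posOf_surj {n : ℕ} (h : Equiv.Perm (Fin (n + 1))) : ∀ k ≤ n, ∃ a ≤ n, posOf h a = k := by
  intro k hk
  refine ⟨(h.symm ⟨k, by omega⟩).val, by have := (h.symm ⟨k, by omega⟩).2; omega, ?_⟩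
  rw [posOf_val]; simp

theorem folded_iff (s : List Bool) (h : Equiv.Perm (Fin (s.length + 1))) :
    Folded s h ↔ St s (posOf h) := by
  have e1 : ∀ i : Fin s.length, posOf h i = (h i.castSucc).val := fun i => posOf_val h i.castSucc
  have e2 : ∀ i : Fin s.length, posOf h (i + 1) = (h i.succ).val := fun i => posOf_val h i.succ
  have c : ∀ i : Fin s.length, (s.get i = true ↔
      if i.val % 2 = 0 then h i.castSucc < h i.succ else h i.succ < h i.castSucc) ↔
      U s (i + 1) = U s i + if posOf h i < posOf h (i + 1) then sg i else - sg i := by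
    intro i
    have hne : posOf h i ≠ posOf h (i + 1) := fun e => by
      have := posOf_inj h _ (by omega) _ (by omega) e; omega
    rw [U_succ s i.2, Fin.lt_def, Fin.lt_def, ← e1, ← e2]
    simp only [List.get_eq_getElem]
    unfold sg
    split_ifs <;> simp_all <;> omega
  constructor
  · rintro ⟨h1, h2⟩
    refine ⟨posOf_le h, posOf_inj h, fun i hi j hj hij hp => ?_, fun i hi => (c ⟨i, hi⟩).1 (h2 _)⟩
    have := h1 ⟨i, hi⟩ ⟨j, hj⟩ (fun e => hij (congrArg Fin.val e)) hp
    simp only [Fin.lt_def, Fin.coe_min, Fin.coe_max, ← e1, ← e2] at this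
    exact this
  · rintro ⟨_, _, h1, h2⟩
    refine ⟨fun i j hij hp => ?_, fun i => (c i).2 (h2 i i.2)⟩
    have := h1 i i.2 j j.2 (fun e => hij (Fin.ext e)) hp
    simp only [Fin.lt_def, Fin.coe_min, Fin.coe_max, ← e1, ← e2]
    exact this

theorem St.congr {s : List Bool} {pos pos' : ℕ → ℕ} (h : St s pos)
    (e : ∀ a ≤ s.length, pos' a = pos a) : St s pos' := by
  refine ⟨fun a ha => by rw [e a ha]; exact h.1 a ha,
    fun a ha b hb => by rw [e a ha, e b hb]; exact h.2.1 a ha b hb,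
    fun i hi j hj => by rw [e i hi.le, e j hj.le, e _ hi, e _ hj]; exact h.2.2.1 i hi j hj,
    fun i hi => by rw [e i hi.le, e _ hi]; exact h.2.2.2 i hi⟩

theorem Rel.congr {n p : ℕ} {μ pos pos' : ℕ → ℕ} (h : Rel n pos p μ)
    (e : ∀ a ≤ n, pos' a = pos a) : Rel n pos' p μ := by
  have k : ∀ y < 2 * n + 2, Tm n pos' y = Tm n pos y := fun y hy => by
    unfold Tm
    rw [e _ (by have := seg_spec n y hy; omega)]
  refine ⟨h.1, h.2.1, by rw [k _ h.1]; exact h.2.2.1, h.2.2.2.1, fun g hg => ?_⟩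
  have := h.2.2.2.2 g hg
  rw [k _ (rot_lt h.1 hg), k _ (rot_lt h.1 this.1)]
  exact this

theorem count_eq (s : List Bool) :
    Nat.card {h : Equiv.Perm (Fin (s.length + 1)) // Folded s h} =
      ∑ r ∈ range (s.length + 1), A (low (th s (2 * r))) 0 (2 * s.length + 2) := by
  classical
  rw [Nat.card_eq_fintype_card, Fintype.card_subtype]
  unfold A
  rw [← card_sigma]
  refine card_eq_of_rel _ _ (fun h b => Rel s.length (posOf h) (2 * b.1) b.2) ?_ ?_ ?_ ?_
  · intro h hh
    obtain ⟨p, μ, h1, h2⟩ := fold_fwd ((folded_iff s h).1 (mem_filter.1 hh).2) (posOf_surj h)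
    have := h2.1
    obtain ⟨r, rfl⟩ : ∃ r, p = 2 * r := ⟨p / 2, by have := h2.2.1; omega⟩
    exact ⟨⟨r, μ⟩, mem_sigma.2 ⟨mem_range.2 (by simp only; omega), mem_VS.2 h1⟩, h2⟩
  · rintro ⟨r, μ⟩ hb
    obtain ⟨h1, h2⟩ := mem_sigma.1 hb
    have h1 := mem_range.1 h1
    simp only at h1
    obtain ⟨pos, h3, h4⟩ := fold_bwd (p := 2 * r) (by omega) (by omega) (mem_VS.1 h2)
    let f : Fin (s.length + 1) → Fin (s.length + 1) :=
      fun i => ⟨pos i, by have := h3.1 i (by omega); omega⟩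
    have hf : Function.Injective f := fun a b e =>
      Fin.ext (h3.2.1 a (by omega) b (by omega) (congrArg Fin.val e))
    have e : ∀ a ≤ s.length, posOf (Equiv.ofBijective f hf.bijective_of_finite) a = pos a :=
      fun a ha => posOf_val _ ⟨a, by omega⟩
    exact ⟨Equiv.ofBijective f hf.bijective_of_finite,
      mem_filter.2 ⟨mem_univ _, (folded_iff s _).2 (h3.congr e)⟩, h4.congr e⟩
  · rintro h ⟨r, μ⟩ ⟨r', μ'⟩ h1 h2
    obtain ⟨e1, e2⟩ := rel_right (posOf_inj h) h1 h2
    simp only at e1 e2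
    obtain rfl : r = r' := by omega
    rw [e2]
  · intro h h' b h1 h2
    have := rel_left (posOf_inj h) (posOf_le h) (posOf_le h') h1 h2
    ext i
    rw [← posOf_val, ← posOf_val, this i (by omega)]

end Pool.Agent.Lib.MP_8f75c8_lc
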