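import Pool.Agent.Lib.MP_8f75c8_lc.Both

/-!
Folded states of a strip, doubled to closed meanders.
-/

namespace Pool.Agent.Lib.MP_8f75c8_lc

open Finset

def rot (n p g : ℕ) : ℕ := if p + g < 2 * n + 2 then p + g else p + g - (2 * n + 2)
def unrot (n p y : ℕ) : ℕ := if p ≤ y then y - p else y + (2 * n + 2) - p
def seg (n y : ℕ) : ℕ := if y ≤ n then y else 2 * n + 1 - y
def U (s : List Bool) (y : ℕ) : ℤ := ((s.take y).map fun b => if b = true then (1 : ℤ) else -1).sum
def th (s : List Bool) (p g : ℕ) : ℤ :=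
  U s (seg s.length (rot s.length p g)) - (if rot s.length p g ≤ s.length then 0 else 1) -
    (if p + g < 2 * s.length + 2 then 0 else 2)
def io (n p g : ℕ) : ℕ := unrot n p (2 * n + 1 - rot n p g)
def Tm (n : ℕ) (pos : ℕ → ℕ) (y : ℕ) : ℕ := 2 * pos (seg n y) + (1 - y % 2)

def NCr (n : ℕ) (pos : ℕ → ℕ) : Prop :=
  ∀ i < n, ∀ j < n, i ≠ j → i % 2 = j % 2 →
    ¬ (min (pos i) (pos (i + 1)) < min (pos j) (pos (j + 1)) ∧
      min (pos j) (pos (j + 1)) < max (pos i) (pos (i + 1)) ∧
      max (pos i) (pos (i + 1)) < max (pos j) (pos (j + 1)))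

def Cons (s : List Bool) (pos : ℕ → ℕ) : Prop :=
  ∀ i < s.length, U s (i + 1) = U s i + if pos i < pos (i + 1) then sg i else - sg i

theorem U_succ (s : List Bool) {i : ℕ} (hi : i < s.length) :
    U s (i + 1) = U s i + if s[i] = true then 1 else -1 := by
  unfold U
  rw [List.take_succ_eq_append_getElem hi, List.map_append, List.sum_append, List.map_singleton,
    List.sum_singleton]

theorem U_par (s : List Bool) {i : ℕ} (hi : i ≤ s.length) : (U s i + i) % 2 = 0 := by
  induction i with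
  | zero => simp [U]
  | succ i ih =>
    rw [U_succ s hi]
    have := ih (by omega)
    push_cast
    split_ifs <;> omega

theorem rot_spec (n p g : ℕ) : (p + g < 2 * n + 2 ∧ rot n p g = p + g) ∨
    (2 * n + 2 ≤ p + g ∧ rot n p g + (2 * n + 2) = p + g) := by
  unfold rot; split_ifs <;> omega

theorem unrot_spec (n p y : ℕ) (hp : p < 2 * n + 2) : (p ≤ y ∧ unrot n p y + p = y) ∨
    (y < p ∧ unrot n p y + p = y + (2 * n + 2)) := by
  unfold unrot; split_ifs <;> omega

theorem seg_spec (n y : ℕ) (hy : y < 2 * n + 2) : (y ≤ n ∧ seg n y = y) ∨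
    (n < y ∧ seg n y + y = 2 * n + 1) := by
  unfold seg; split_ifs <;> omega

theorem rot_unrot {n p y : ℕ} (hp : p < 2 * n + 2) (hy : y < 2 * n + 2) :
    unrot n p y < 2 * n + 2 ∧ rot n p (unrot n p y) = y := by
  have := unrot_spec n p y hp
  have := rot_spec n p (unrot n p y)
  omega

theorem io_nc {n p : ℕ} (hp : p < 2 * n + 2) : NC (2 * n + 2) (io n p) := by
  have key : ∀ y < 2 * n + 2, io n p y < 2 * n + 2 ∧
      (io n p y + y + 2 * p = 2 * n + 1 ∨ io n p y + y + 2 * p = 2 * n + 1 + (2 * n + 2) ∨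
        io n p y + y + 2 * p = 2 * n + 1 + 2 * (2 * n + 2)) := by
    intro y hy
    have := rot_spec n p y
    have := unrot_spec n p (2 * n + 1 - rot n p y) hp
    unfold io
    omega
  intro y hy
  have a := key y hy
  have b := key _ a.1
  refine ⟨a.1, by omega, by omega, fun z hz => ?_⟩
  have c := key z (by unfold Btw at hz; omega)
  unfold Btw at hz ⊢
  omega

theorem rot_io {n p g : ℕ} (hp : p < 2 * n + 2) (hg : g < 2 * n + 2) :
    rot n p (io n p g) + rot n p g = 2 * n + 1 := by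
  have := rot_spec n p g
  have := (rot_unrot (y := 2 * n + 1 - rot n p g) hp (by omega)).2
  unfold io
  omega

theorem th_io (s : List Bool) {p : ℕ} (hp : p < 2 * s.length + 2) :
    ∀ y < 2 * s.length + 2, th s p (io s.length p y) = th s p y +
      if y < io s.length p y then -1 else 1 := by
  intro y hy
  have a := rot_io hp hy
  have b := rot_spec s.length p y
  have c := rot_spec s.length p (io s.length p y)
  have d := (io_nc hp y hy).1
  have e : seg s.length (rot s.length p (io s.length p y)) = seg s.length (rot s.length p y) := by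
    have := seg_spec s.length (rot s.length p (io s.length p y)) (by omega)
    have := seg_spec s.length (rot s.length p y) (by omega)
    omega
  unfold th
  rw [e]
  split_ifs <;> omega

theorem th_par (s : List Bool) {p : ℕ} (hp : p < 2 * s.length + 2) (hp2 : p % 2 = 0) :
    ∀ g < 2 * s.length + 2, (th s p g + g) % 2 = 0 := by
  intro g hg
  have b := rot_spec s.length p g
  have c := seg_spec s.length (rot s.length p g) (by omega)
  have d := U_par s (i := seg s.length (rot s.length p g)) (by omega)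
  unfold th
  split_ifs <;> omega

theorem th_last (s : List Bool) {p : ℕ} (hp : p < 2 * s.length + 2) :
    th s p (2 * s.length + 2) = th s p 0 - 2 := by
  have e : rot s.length p (2 * s.length + 2) = rot s.length p 0 := by
    unfold rot; split_ifs <;> omega
  unfold th
  rw [e]
  split_ifs <;> omega

section
variable {n p : ℕ} {pos : ℕ → ℕ}

/-- the two segments joined by a gap -/
theorem gap_cases (hp : p < 2 * n + 2) (hp2 : p % 2 = 0) {g : ℕ} (hg : g < 2 * n + 2) :
    rot n p g % 2 = g % 2 ∧ rot n p (g + 1) % 2 = (g + 1) % 2 ∧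
    ((∃ i < n, i % 2 = g % 2 ∧ ((seg n (rot n p g) = i ∧ seg n (rot n p (g + 1)) = i + 1) ∨
      (seg n (rot n p g) = i + 1 ∧ seg n (rot n p (g + 1)) = i))) ∨
    (∃ k, seg n (rot n p g) = k ∧ seg n (rot n p (g + 1)) = k ∧
      ((k = n ∧ n % 2 = g % 2) ∨ (k = 0 ∧ g % 2 = 1)))) := by
  have a := rot_spec n p g
  have b := rot_spec n p (g + 1)
  have c := seg_spec n (rot n p g) (by omega)
  have d := seg_spec n (rot n p (g + 1)) (by omega)
  refine ⟨by omega, by omega, ?_⟩
  by_cases h1 : rot n p g < n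
  · exact Or.inl ⟨rot n p g, h1, by omega, by omega⟩
  by_cases h2 : rot n p g = n
  · exact Or.inr ⟨n, by omega, by omega, by omega⟩
  by_cases h3 : rot n p g = 2 * n + 1
  · exact Or.inr ⟨0, by omega, by omega, by omega⟩
  · exact Or.inl ⟨2 * n - rot n p g, by omega, by omega, by omega⟩

theorem btw_double {a b c e e' f : ℕ} (he : e ≤ 1) (he' : e' ≤ 1) (hf : f ≤ 1) (h1 : a ≠ c)
    (h2 : b ≠ c) : Btw (2 * a + e) (2 * b + e') (2 * c + f) ↔ Btw a b c := by
  unfold Btw; omega

theorem btw_symm {a b c : ℕ} : Btw a b c ↔ Btw b a c := by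
  unfold Btw; omega

theorem btw_same {a b g g' : ℕ} (h : g % 2 = g' % 2) :
    (Btw (2 * a + (1 - g % 2)) (2 * b + (1 - (g + 1) % 2)) (2 * a + (1 - g' % 2)) ↔
      Btw (2 * a + (1 - g % 2)) (2 * b + (1 - (g + 1) % 2)) (2 * b + (1 - (g' + 1) % 2))) ∧
    (Btw (2 * a + (1 - g % 2)) (2 * b + (1 - (g + 1) % 2)) (2 * b + (1 - g' % 2)) ↔
      Btw (2 * a + (1 - g % 2)) (2 * b + (1 - (g + 1) % 2)) (2 * a + (1 - (g' + 1) % 2))) := by
  unfold Btw
  rcases Nat.mod_two_eq_zero_or_one g with h1 | h1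
  · rw [show (g + 1) % 2 = 1 by omega, show (g' + 1) % 2 = 1 by omega, ← h, h1]; omega
  · rw [show (g + 1) % 2 = 0 by omega, show (g' + 1) % 2 = 0 by omega, ← h, h1]; omega

theorem btw_cap {a c e e' : ℕ} (he : e ≤ 1) (he' : e' ≤ 1) : ¬ Btw (2 * a + e) (2 * a + e') c := by
  unfold Btw; omega

theorem btw_of_ncr {a b c d : ℕ} (h1 : a ≠ c) (h2 : a ≠ d) (h3 : b ≠ c) (h4 : b ≠ d)
    (c1 : ¬ (min a b < min c d ∧ min c d < max a b ∧ max a b < max c d))
    (c2 : ¬ (min c d < min a b ∧ min a b < max c d ∧ max c d < max a b)) :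
    Btw a b c ↔ Btw a b d := by
  unfold Btw
  rcases le_total a b with e1 | e1 <;> rcases le_total c d with e2 | e2 <;>
    simp only [min_eq_left e1, max_eq_right e1, min_eq_right e1, max_eq_left e1,
      min_eq_left e2, max_eq_right e2, min_eq_right e2, max_eq_left e2] at c1 c2 <;> omega

theorem ncr_of_btw {a b c d : ℕ} (h : Btw a b c ↔ Btw a b d) :
    ¬ (min a b < min c d ∧ min c d < max a b ∧ max a b < max c d) := by
  unfold Btw at h
  rcases le_total a b with e1 | e1 <;> rcases le_total c d with e2 | e2 <;>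
    simp only [min_eq_left e1, max_eq_right e1, min_eq_right e1, max_eq_left e1,
      min_eq_left e2, max_eq_right e2, min_eq_right e2, max_eq_left e2] <;> omega

theorem mea_of_ncr (hp : p < 2 * n + 2) (hp2 : p % 2 = 0)
    (hinj : ∀ a ≤ n, ∀ b ≤ n, pos a = pos b → a = b) (h : NCr n pos) :
    Mea (2 * n + 2) fun g => Tm n pos (rot n p g) := by
  intro g hg g' hg' hpar
  have hne : ∀ a b, a ≤ n → b ≤ n → a ≠ b → pos a ≠ pos b := fun a b ha hb c e =>
    c (hinj a ha b hb e)
  obtain ⟨a1, a2, a3⟩ := gap_cases hp hp2 hg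
  obtain ⟨b1, b2, b3⟩ := gap_cases hp hp2 hg'
  simp only [Tm, a1, a2, b1, b2]
  clear a1 a2 b1 b2 hg hg' hp hp2
  have o : ∀ k, 1 - k ≤ 1 := fun k => Nat.sub_le _ _
  rcases a3 with ⟨i, hi, i2, a3⟩ | ⟨k, e1, e2, a3⟩
  · rcases b3 with ⟨j, hj, j2, b3⟩ | ⟨k, e1, e2, b3⟩
    · by_cases hij : i = j
      · subst hij
        rcases a3 with ⟨e1, e2⟩ | ⟨e1, e2⟩ <;> rcases b3 with ⟨e3, e4⟩ | ⟨e3, e4⟩ <;>
          rw [e1, e2, e3, e4]
        · exact (btw_same hpar).1
        · exact (btw_same hpar).2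
        · exact (btw_same hpar).2
        · exact (btw_same hpar).1
      · have c1 := h i hi j hj hij (by omega)
        have c2 := h j hj i hi (Ne.symm hij) (by omega)
        have n1 := hne i j (by omega) (by omega) (by omega)
        have n2 := hne i (j + 1) (by omega) (by omega) (by omega)
        have n3 := hne (i + 1) j (by omega) (by omega) (by omega)
        have n4 := hne (i + 1) (j + 1) (by omega) (by omega) (by omega)
        have key := btw_of_ncr n1 n2 n3 n4 c1 c2
        rcases a3 with ⟨e1, e2⟩ | ⟨e1, e2⟩ <;> rcases b3 with ⟨e3, e4⟩ | ⟨e3, e4⟩ <;>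
          rw [e1, e2, e3, e4]
        · rw [btw_double (o _) (o _) (o _) n1 n3, btw_double (o _) (o _) (o _) n2 n4, key]
        · rw [btw_double (o _) (o _) (o _) n1 n3, btw_double (o _) (o _) (o _) n2 n4, key]
        · rw [btw_double (o _) (o _) (o _) n3 n1, btw_double (o _) (o _) (o _) n4 n2, btw_symm,
            key, btw_symm]
        · rw [btw_double (o _) (o _) (o _) n3 n1, btw_double (o _) (o _) (o _) n4 n2, btw_symm,
            ← key, btw_symm]
    · have n1 := hne i k (by omega) (by omega) (by omega)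
      have n2 := hne (i + 1) k (by omega) (by omega) (by omega)
      rcases a3 with ⟨e3, e4⟩ | ⟨e3, e4⟩ <;> rw [e1, e2, e3, e4]
      · rw [btw_double (o _) (o _) (o _) n1 n2, btw_double (o _) (o _) (o _) n1 n2]
      · rw [btw_double (o _) (o _) (o _) n2 n1, btw_double (o _) (o _) (o _) n2 n1]
  · rw [e1, e2]
    exact iff_of_false (btw_cap (o _) (o _)) (btw_cap (o _) (o _))

theorem ncr_of_mea (hp : p < 2 * n + 2) (hp2 : p % 2 = 0)
    (hinj : ∀ a ≤ n, ∀ b ≤ n, pos a = pos b → a = b)
    (h : Mea (2 * n + 2) fun g => Tm n pos (rot n p g)) : NCr n pos := by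
  intro i hi j hj hij hpar
  have hne : ∀ a b, a ≤ n → b ≤ n → a ≠ b → pos a ≠ pos b := fun a b ha hb c e =>
    c (hinj a ha b hb e)
  have a := rot_unrot (y := i) hp (by omega)
  have b := rot_unrot (y := j) hp (by omega)
  have a1 : rot n p (unrot n p i + 1) = i + 1 := by
    have := rot_spec n p (unrot n p i + 1); have := unrot_spec n p i hp; omega
  have b1 : rot n p (unrot n p j + 1) = j + 1 := by
    have := rot_spec n p (unrot n p j + 1); have := unrot_spec n p j hp; omega
  have := h _ a.1 _ b.1 (by have := unrot_spec n p i hp; have := unrot_spec n p j hp; omega)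
  simp only [a.2, b.2, a1, b1, Tm, seg, if_pos hi.le, if_pos hj.le,
    if_pos (Nat.succ_le_of_lt hi), if_pos (Nat.succ_le_of_lt hj)] at this
  have o : ∀ k, 1 - k ≤ 1 := fun k => Nat.sub_le _ _
  have n1 := hne i j (by omega) (by omega) (by omega)
  have n2 := hne i (j + 1) (by omega) (by omega) (by omega)
  have n3 := hne (i + 1) j (by omega) (by omega) (by omega)
  have n4 := hne (i + 1) (j + 1) (by omega) (by omega) (by omega)
  rw [btw_double (o _) (o _) (o _) n1 n3, btw_double (o _) (o _) (o _) n2 n4] at this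
  exact ncr_of_btw this

end

theorem th_step (s : List Bool) {p g : ℕ} (hp : p < 2 * s.length + 2) (hg : g < 2 * s.length + 2) :
    th s p (g + 1) - th s p g = U s (seg s.length (rot s.length p (g + 1))) -
      U s (seg s.length (rot s.length p g)) -
      if rot s.length p g = s.length ∨ rot s.length p g = 2 * s.length + 1 then 1 else 0 := by
  have a := rot_spec s.length p g
  have b := rot_spec s.length p (g + 1)
  unfold th
  split_ifs <;> omega

theorem lt_double {a b e e' : ℕ} (he : e ≤ 1) (he' : e' ≤ 1) (h : a ≠ b) :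
    2 * a + e < 2 * b + e' ↔ a < b := by omega

theorem rule_of_cons {s : List Bool} {p : ℕ} {pos : ℕ → ℕ} (hp : p < 2 * s.length + 2)
    (hp2 : p % 2 = 0) (hinj : ∀ a ≤ s.length, ∀ b ≤ s.length, pos a = pos b → a = b)
    (h : Cons s pos) : ∀ g < 2 * s.length + 2, th s p (g + 1) = th s p g +
      if Tm s.length pos (rot s.length p g) < Tm s.length pos (rot s.length p (g + 1)) then sg g
      else - sg g := by
  intro g hg
  have st := th_step s hp hg
  have a := rot_spec s.length p g
  have b := rot_spec s.length p (g + 1)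
  have c := seg_spec s.length (rot s.length p g) (by omega)
  have d := seg_spec s.length (rot s.length p (g + 1)) (by omega)
  obtain ⟨a1, a2, a3⟩ := gap_cases hp hp2 hg
  have o : ∀ k, 1 - k ≤ 1 := fun k => Nat.sub_le _ _
  unfold Tm
  rcases a3 with ⟨i, hi, i2, ⟨e1, e2⟩ | ⟨e1, e2⟩⟩ | ⟨k, e1, e2, a3⟩
  · have := h i hi
    have hne : pos i ≠ pos (i + 1) := fun e => by have := hinj _ (by omega) _ (by omega) e; omega
    rw [if_neg (by omega), e1, e2] at st
    rw [e1, e2, ← sg_congr i2]
    simp only [lt_double (o _) (o _) hne]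
    clear a b c d a1 a2 e1 e2
    omega
  · have := h i hi
    have hne : pos i ≠ pos (i + 1) := fun e => by have := hinj _ (by omega) _ (by omega) e; omega
    rw [if_neg (by omega), e1, e2] at st
    rw [e1, e2, ← sg_congr i2]
    simp only [lt_double (o _) (o _) hne.symm]
    clear a b c d a1 a2 e1 e2
    split_ifs at this ⊢ <;> omega
  · rw [if_pos (by omega), e1, e2] at st
    rw [e1, e2, a1, a2]
    clear a b c d a1 a2 e1 e2 a3
    unfold sg
    split_ifs <;> omega

theorem cons_of_rule {s : List Bool} {p : ℕ} {pos : ℕ → ℕ} (hp : p < 2 * s.length + 2)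
    (hp2 : p % 2 = 0) (hinj : ∀ a ≤ s.length, ∀ b ≤ s.length, pos a = pos b → a = b)
    (h : ∀ g < 2 * s.length + 2, th s p (g + 1) = th s p g +
      if Tm s.length pos (rot s.length p g) < Tm s.length pos (rot s.length p (g + 1)) then sg g
      else - sg g) : Cons s pos := by
  intro i hi
  have a := rot_unrot (y := i) hp (by omega)
  have u := unrot_spec s.length p i hp
  have a1 : rot s.length p (unrot s.length p i + 1) = i + 1 := by
    have := rot_spec s.length p (unrot s.length p i + 1); omega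
  have := h _ a.1
  have hne : pos i ≠ pos (i + 1) := fun e => by have := hinj _ (by omega) _ (by omega) e; omega
  simp only [th, a.2, a1, Tm, seg, if_pos hi.le, if_pos (Nat.succ_le_of_lt hi)] at this
  unfold sg at this ⊢
  split_ifs at this ⊢ <;> omega

/-- states as functions on the naturals -/
def St (s : List Bool) (pos : ℕ → ℕ) : Prop :=
  (∀ a ≤ s.length, pos a ≤ s.length) ∧
    (∀ a ≤ s.length, ∀ b ≤ s.length, pos a = pos b → a = b) ∧ NCr s.length pos ∧ Cons s pos

def Rel (n : ℕ) (pos : ℕ → ℕ) (p : ℕ) (μ : ℕ → ℕ) : Prop :=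
  p < 2 * n + 2 ∧ p % 2 = 0 ∧ Tm n pos p = 2 * n + 1 ∧ (∀ g, 2 * n + 2 ≤ g → μ g = g) ∧
    ∀ g < 2 * n + 2, μ g < 2 * n + 2 ∧
      Tm n pos (rot n p (μ g)) = par (2 * n + 2) (Tm n pos (rot n p g))

section
variable {n p : ℕ} {pos : ℕ → ℕ}

theorem Tm_lt (h : ∀ a ≤ n, pos a ≤ n) {y : ℕ} (hy : y < 2 * n + 2) : Tm n pos y < 2 * n + 2 := by
  have := seg_spec n y hy
  have := h (seg n y) (by omega)
  unfold Tm; omega

theorem Tm_inj (hinj : ∀ a ≤ n, ∀ b ≤ n, pos a = pos b → a = b) {y z : ℕ} (hy : y < 2 * n + 2)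
    (hz : z < 2 * n + 2) (e : Tm n pos y = Tm n pos z) : y = z := by
  have := seg_spec n y hy
  have := seg_spec n z hz
  unfold Tm at e
  have := hinj (seg n y) (by omega) (seg n z) (by omega) (by omega)
  omega

theorem Tm_surj (hs : ∀ k ≤ n, ∃ a ≤ n, pos a = k) {τ : ℕ} (h : τ < 2 * n + 2) :
    ∃ y < 2 * n + 2, Tm n pos y = τ := by
  obtain ⟨a, ha, e⟩ := hs (τ / 2) (by omega)
  by_cases c : (a + τ) % 2 = 1
  · refine ⟨a, by omega, ?_⟩
    unfold Tm seg
    rw [if_pos ha]; omega
  · refine ⟨2 * n + 1 - a, by omega, ?_⟩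
    unfold Tm seg
    rw [if_neg (by omega), show 2 * n + 1 - (2 * n + 1 - a) = a by omega]; omega

theorem rot_lt (hp : p < 2 * n + 2) {g : ℕ} (hg : g < 2 * n + 2) : rot n p g < 2 * n + 2 := by
  have := rot_spec n p g; omega

theorem rot_inj (hp : p < 2 * n + 2) {g g' : ℕ} (hg : g < 2 * n + 2) (hg' : g' < 2 * n + 2)
    (e : rot n p g = rot n p g') : g = g' := by
  have := rot_spec n p g; have := rot_spec n p g'; omega

theorem rot_zero (hp : p < 2 * n + 2) : rot n p 0 = p := by
  have := rot_spec n p 0; omega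

theorem Tm_par (hp2 : p % 2 = 0) (g : ℕ) : (Tm n pos (rot n p g) + g) % 2 = 1 := by
  have := rot_spec n p g
  unfold Tm; omega

theorem Tm_io (hp : p < 2 * n + 2) {g : ℕ} (hg : g < 2 * n + 2) :
    Tm n pos (rot n p (io n p g)) / 2 = Tm n pos (rot n p g) / 2 := by
  have a := rot_io hp hg
  have e : seg n (rot n p (io n p g)) = seg n (rot n p g) := by
    have := seg_spec n (rot n p (io n p g)) (by omega)
    have := seg_spec n (rot n p g) (by omega)
    omega
  unfold Tm
  rw [e]; omega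

end

theorem fold_fwd {s : List Bool} {pos : ℕ → ℕ} (h : St s pos)
    (hs : ∀ k ≤ s.length, ∃ a ≤ s.length, pos a = k) :
    ∃ p μ, Valid (low (th s p)) 0 (2 * s.length + 2) μ ∧ Rel s.length pos p μ := by
  obtain ⟨p, hp, e⟩ := Tm_surj hs (τ := 2 * s.length + 1) (by omega)
  have hp2 : p % 2 = 0 := by unfold Tm at e; omega
  obtain ⟨μ, h1, h2⟩ := fwd (M := 2 * s.length + 2) (by omega) (by omega)
    (t := fun g => Tm s.length pos (rot s.length p g))
    (fun g hg => Tm_lt h.1 (rot_lt hp hg))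
    (fun a ha b hb e => rot_inj hp ha hb (Tm_inj h.2.1 (rot_lt hp ha) (rot_lt hp hb) e))
    (fun τ hτ => by
      obtain ⟨y, hy, e⟩ := Tm_surj hs hτ
      exact ⟨_, (rot_unrot hp hy).1, by rw [(rot_unrot hp hy).2, e]⟩)
    (by simp only [rot_zero hp, e]; omega) (fun g _ => Tm_par hp2 g)
    (mea_of_ncr hp hp2 h.2.1 h.2.2.1) (th s p)
    (fun g hg => rule_of_cons hp hp2 h.2.1 h.2.2.2 g (by omega))
  exact ⟨p, μ, h1, hp, hp2, e, fun g hg => h1.1 g (Or.inr hg), fun g hg => ⟨h1.lt hg, h2 g hg⟩⟩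

theorem fold_bwd {s : List Bool} {p : ℕ} {μ : ℕ → ℕ} (hp : p < 2 * s.length + 2) (hp2 : p % 2 = 0)
    (hv : Valid (low (th s p)) 0 (2 * s.length + 2) μ) :
    ∃ pos, St s pos ∧ Rel s.length pos p μ := by
  obtain ⟨t, t1, t2, t3, t4, t5, t6, t7, t8, t9⟩ := bwd (by omega) (by omega) (io_nc hp) (th s p)
    (th_io s hp) 0 (th_par s hp hp2) (th_last s hp) hv
  have key : ∀ g ≤ 2 * s.length + 2,
      Tm s.length (fun i => t (unrot s.length p i) / 2) (rot s.length p g) = t g := by
    have k1 : ∀ g < 2 * s.length + 2,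
        Tm s.length (fun i => t (unrot s.length p i) / 2) (rot s.length p g) = t g := by
      intro g hg
      have a := rot_spec s.length p g
      have b := t5 g hg
      unfold Tm seg
      split_ifs with c
      · have : unrot s.length p (rot s.length p g) = g := by
          have := unrot_spec s.length p (rot s.length p g) hp; omega
        simp only [this]; omega
      · have := t9 g hg
        unfold io at this
        simp only [this]; omega
    intro g hg
    rcases hg.eq_or_lt with rfl | hg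
    · rw [t4, ← k1 0 (by omega)]
      congr 1
      unfold rot; split_ifs <;> omega
    · exact k1 g hg
  have hinj : ∀ a ≤ s.length, ∀ b ≤ s.length,
      t (unrot s.length p a) / 2 = t (unrot s.length p b) / 2 → a = b := by
    intro a ha b hb e
    have a1 := rot_unrot (y := a) hp (by omega)
    have b1 := rot_unrot (y := b) hp (by omega)
    by_cases c : t (unrot s.length p a) = t (unrot s.length p b)
    · rw [← a1.2, t2 _ a1.1 _ b1.1 c, b1.2]
    · have i1 := io_nc hp _ a1.1
      have i2 := t9 _ a1.1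
      have i3 := t5 _ a1.1
      have i4 := t5 _ i1.1
      have i5 := t2 _ i1.1 _ b1.1 (by omega)
      have i6 := rot_io hp a1.1
      rw [i5] at i6
      omega
  refine ⟨fun i => t (unrot s.length p i) / 2, ⟨?_, hinj, ?_, ?_⟩, hp, hp2, ?_,
    fun g hg => hv.1 g (Or.inr hg), ?_⟩
  · intro a ha
    have := t1 _ (rot_unrot (y := a) hp (by omega)).1
    show t _ / 2 ≤ _
    omega
  · refine ncr_of_mea hp hp2 hinj fun g hg g' hg' hpar => ?_
    simp only [key g hg.le, key g' hg'.le, key (g + 1) hg, key (g' + 1) hg']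
    exact t6 g hg g' hg' hpar
  · refine cons_of_rule hp hp2 hinj fun g hg => ?_
    rw [key g hg.le, key (g + 1) hg]
    exact t7 g hg
  · have := key 0 (by omega)
    rw [rot_zero hp] at this
    rw [this, t3]; omega
  · intro g hg
    refine ⟨hv.lt hg, ?_⟩
    rw [key g hg.le, key _ (hv.lt hg).le]
    exact t8 g hg

theorem rel_right {n : ℕ} {pos : ℕ → ℕ} (hinj : ∀ a ≤ n, ∀ b ≤ n, pos a = pos b → a = b)
    {p p' : ℕ} {μ μ' : ℕ → ℕ} (h : Rel n pos p μ) (h' : Rel n pos p' μ') : p = p' ∧ μ = μ' := by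
  obtain rfl : p = p' := Tm_inj hinj h.1 h'.1 (h.2.2.1.trans h'.2.2.1.symm)
  refine ⟨rfl, funext fun g => ?_⟩
  by_cases hg : g < 2 * n + 2
  · have a := h.2.2.2.2 g hg
    have b := h'.2.2.2.2 g hg
    exact rot_inj h.1 a.1 b.1 (Tm_inj hinj (rot_lt h.1 a.1) (rot_lt h.1 b.1) (a.2.trans b.2.symm))
  · rw [h.2.2.2.1 g (by omega), h'.2.2.2.1 g (by omega)]

theorem rel_left {n : ℕ} {pos pos' : ℕ → ℕ} (hinj : ∀ a ≤ n, ∀ b ≤ n, pos a = pos b → a = b)
    (hl : ∀ a ≤ n, pos a ≤ n) (hl' : ∀ a ≤ n, pos' a ≤ n)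
    {p : ℕ} {μ : ℕ → ℕ} (h : Rel n pos p μ) (h' : Rel n pos' p μ) : ∀ a ≤ n, pos' a = pos a := by
  have hp := h.1
  have := uniq (M := 2 * n + 2) (by omega) (by omega) (io_nc hp) (fun g hg => (h.2.2.2.2 g hg).1)
    (t := fun g => Tm n pos (rot n p g)) (t' := fun g => Tm n pos' (rot n p g))
    (fun g hg => Tm_lt hl (rot_lt hp hg)) (fun g hg => Tm_lt hl' (rot_lt hp hg))
    (fun a ha b hb e => rot_inj hp ha hb (Tm_inj hinj (rot_lt hp ha) (rot_lt hp hb) e))
    (fun g _ => Tm_par h.2.1 g) (fun g _ => Tm_par h.2.1 g)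
    (by simp only [rot_zero hp, h.2.2.1]; omega) (by simp only [rot_zero hp, h'.2.2.1]; omega)
    (fun g hg => (h.2.2.2.2 g hg).2) (fun g hg => (h'.2.2.2.2 g hg).2)
    (fun g hg => Tm_io hp hg) (fun g hg => Tm_io hp hg)
  intro a ha
  have a1 := rot_unrot (y := a) hp (by omega)
  have := this _ a1.1
  simp only [a1.2, Tm, seg, if_pos ha] at this
  omega

end Pool.Agent.Lib.MP_8f75c8_lc
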