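import Pool.Agent.Lib.MP_8f75c8_lc.Meander

/-!
Two non-crossing matchings with a compatible potential form a single loop.
-/

namespace Pool.Agent.Lib.MP_8f75c8_lc

open Finset

/-- non-crossing perfect matching of `[0, M)` that changes parity -/
def NC (M : ℕ) (μ : ℕ → ℕ) : Prop :=
  ∀ y < M, μ y < M ∧ μ (μ y) = y ∧ (μ y + y) % 2 = 1 ∧
    ∀ z, Btw y (μ y) z → Btw y (μ y) (μ z)

def walk (ι μ : ℕ → ℕ) (z : ℕ) : ℕ → ℕ
  | 0 => z
  | τ + 1 => if τ % 2 = 0 then ι (walk ι μ z τ) else μ (walk ι μ z τ)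

section
variable {M : ℕ} {ι μ : ℕ → ℕ} {z : ℕ}

theorem walk_succ (τ : ℕ) :
    walk ι μ z (τ + 1) = if τ % 2 = 0 then ι (walk ι μ z τ) else μ (walk ι μ z τ) := rfl

theorem walk_lt (hι : NC M ι) (hμ : NC M μ) (hz : z < M) (τ : ℕ) :
    walk ι μ z τ < M ∧ (walk ι μ z τ + τ) % 2 = z % 2 := by
  induction τ with
  | zero => exact ⟨hz, rfl⟩
  | succ τ ih =>
    rw [walk_succ]
    have h1 := hι _ ih.1
    have h2 := hμ _ ih.1
    split_ifs <;> omega

theorem walk_back (hι : NC M ι) (hμ : NC M μ) (hz : z < M) (i d : ℕ)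
    (h : walk ι μ z i = walk ι μ z (i + d)) : walk ι μ z 0 = walk ι μ z d := by
  induction i with
  | zero => simpa using h
  | succ i ih =>
    apply ih
    have p1 := walk_lt hι hμ hz (i + 1)
    have p2 := walk_lt hι hμ hz (i + 1 + d)
    have q1 := walk_lt hι hμ hz i
    have q2 := walk_lt hι hμ hz (i + d)
    rw [show i + 1 + d = i + d + 1 by ring, walk_succ, walk_succ] at h
    rw [show i + 1 + d = i + d + 1 by ring] at p2
    rw [walk_succ] at p1 p2
    split_ifs at h p1 p2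
    · rw [← (hι _ q1.1).2.1, h, (hι _ q2.1).2.1]
    · omega
    · omega
    · rw [← (hμ _ q1.1).2.1, h, (hμ _ q2.1).2.1]

theorem walk_period (hι : NC M ι) (hμ : NC M μ) (hz : z < M) :
    ∃ L, 0 < L ∧ L % 2 = 0 ∧ walk ι μ z L = z ∧
      ∀ a < L, ∀ b < L, walk ι μ z a = walk ι μ z b → a = b := by
  have hex : ∃ L, 0 < L ∧ walk ι μ z 0 = walk ι μ z L := by
    obtain ⟨a, b, hab, e⟩ := Finite.exists_ne_map_eq_of_infinite
      (fun k : ℕ => (⟨walk ι μ z k, (walk_lt hι hμ hz k).1⟩ : Fin M))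
    have e : walk ι μ z a = walk ι μ z b := congrArg Fin.val e
    rcases lt_or_gt_of_ne hab with h | h
    · exact ⟨b - a, by omega, walk_back hι hμ hz a _ (by rw [e]; congr 1; omega)⟩
    · exact ⟨a - b, by omega, walk_back hι hμ hz b _ (by rw [← e]; congr 1; omega)⟩
  classical
  have hs := Nat.find_spec hex
  refine ⟨Nat.find hex, hs.1, ?_, hs.2.symm, ?_⟩
  · have := (walk_lt hι hμ hz (Nat.find hex)).2
    rw [← hs.2] at this
    have e : walk ι μ z 0 = z := rfl
    omega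
  · intro a ha b hb e
    by_contra hab
    rcases lt_or_gt_of_ne hab with h | h
    · exact Nat.find_min hex (m := b - a) (by omega)
        ⟨by omega, walk_back hι hμ hz a _ (by rw [e]; congr 1; omega)⟩
    · exact Nat.find_min hex (m := a - b) (by omega)
        ⟨by omega, walk_back hι hμ hz b _ (by rw [← e]; congr 1; omega)⟩

theorem walk_add (L : ℕ) (hL : L % 2 = 0) (h : walk ι μ z L = z) (τ : ℕ) :
    walk ι μ z (τ + L) = walk ι μ z τ := by
  induction τ with
  | zero => rw [zero_add, h]; rfl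
  | succ τ ih =>
    rw [show τ + 1 + L = τ + L + 1 by ring, walk_succ, walk_succ, ih,
      show (τ + L) % 2 = τ % 2 by omega]

theorem NC.btw_iff (h : NC M μ) {y w : ℕ} (hy : y < M) (hw : w < M) :
    Btw y (μ y) w ↔ Btw y (μ y) (μ w) :=
  ⟨(h y hy).2.2.2 w, fun h' => by simpa [(h w hw).2.1] using (h y hy).2.2.2 _ h'⟩

theorem walk_mea (hι : NC M ι) (hμ : NC M μ) (hz : z < M) (L : ℕ) : Mea L (walk ι μ z) := by
  intro g _ g' _ hp
  rw [walk_succ, walk_succ, ← hp]
  split_ifs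
  · exact hι.btw_iff (walk_lt hι hμ hz g).1 (walk_lt hι hμ hz g').1
  · exact hμ.btw_iff (walk_lt hι hμ hz g).1 (walk_lt hι hμ hz g').1

/-- discrete theorem of turning tangents -/
theorem umlauf (hι : NC M ι) (hμ : NC M μ) (hz : z < M) (θ : ℕ → ℤ)
    (hmin : ∀ τ, z ≤ walk ι μ z τ)
    (h1 : ∀ τ, θ (ι (walk ι μ z τ)) = θ (walk ι μ z τ) +
      if walk ι μ z τ < ι (walk ι μ z τ) then -1 else 1)
    (h2 : ∀ τ, θ (μ (walk ι μ z τ)) = θ (walk ι μ z τ) +
      if walk ι μ z τ < μ (walk ι μ z τ) then 1 else -1) : False := by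
  obtain ⟨L, hL0, hL2, hL, hinj⟩ := walk_period hι hμ hz
  have hM := walk_mea hι hμ hz L
  have e0 : walk ι μ z 0 = z := rfl
  have hp := pot_eq hM hinj (fun τ _ _ => by
    have := hmin τ; have := hmin (τ + 1); unfold Btw; omega)
    (fun τ => - θ (walk ι μ z τ)) (fun τ _ => by
      have a1 := h1 τ
      have a2 := h2 τ
      simp only [walk_succ]
      unfold sg
      split_ifs at a1 a2 ⊢ <;> omega) (L - 1) (by omega)
  have hd := D_last hM hinj (τ := L - 1) (by omega) (by omega) (by rw [hL, e0])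
    (fun g _ => hmin g)
  have a2 := h2 (L - 1)
  have e1 : walk ι μ z (L - 1 + 1) = z := by rw [show L - 1 + 1 = L by omega, hL]
  rw [walk_succ, if_neg (by omega)] at e1
  rw [e1, if_neg (by have := hmin (L - 1); omega)] at a2
  simp only [hd, e0] at hp
  rw [if_neg (by omega)] at hp
  omega

theorem single_loop (hι : NC M ι) (hμ : NC M μ) (h0 : 0 < M) (θ : ℕ → ℤ)
    (h1 : ∀ y < M, θ (ι y) = θ y + if y < ι y then -1 else 1)
    (h2 : ∀ y < M, y ≠ 0 → μ y ≠ 0 → θ (μ y) = θ y + if y < μ y then 1 else -1) :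
    walk ι μ (μ 0) M = μ 0 ∧ (∀ a < M, ∀ b < M, walk ι μ (μ 0) a = walk ι μ (μ 0) b → a = b) ∧
      ∀ y < M, ∃ τ < M, walk ι μ (μ 0) τ = y := by
  have hq := (hμ 0 h0).1
  obtain ⟨L, hL0, hL2, hL, hinj⟩ := walk_period hι hμ hq
  have hper := walk_add L hL2 hL
  have hclo : ∀ y, (∃ τ, walk ι μ (μ 0) τ = y) →
      (∃ τ, walk ι μ (μ 0) τ = ι y) ∧ ∃ τ, walk ι μ (μ 0) τ = μ y := by
    rintro y ⟨τ, rfl⟩
    have a1 := walk_succ (ι := ι) (μ := μ) (z := μ 0) τ
    have a2 := walk_succ (ι := ι) (μ := μ) (z := μ 0) (τ + L - 1)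
    rw [show τ + L - 1 + 1 = τ + L by omega, hper] at a2
    have hl := (walk_lt hι hμ hq (τ + L - 1)).1
    by_cases h : τ % 2 = 0
    · rw [if_pos h] at a1
      rw [if_neg (by omega)] at a2
      exact ⟨⟨_, a1⟩, ⟨τ + L - 1, by rw [a2, (hμ _ hl).2.1]⟩⟩
    · rw [if_neg h] at a1
      rw [if_pos (by omega)] at a2
      exact ⟨⟨τ + L - 1, by rw [a2, (hι _ hl).2.1]⟩, ⟨_, a1⟩⟩
  have hall : ∀ y < M, ∃ τ, walk ι μ (μ 0) τ = y := by
    by_contra hcon
    push Not at hcon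
    classical
    have hs := Nat.find_spec hcon
    have hmin := fun m => Nat.find_min' hcon (m := m)
    generalize Nat.find hcon = w at hs hmin
    have hout : ∀ τ, ¬ ∃ σ, walk ι μ (μ 0) σ = walk ι μ w τ := by
      intro τ
      induction τ with
      | zero => rintro ⟨σ, e⟩; exact hs.2 σ e
      | succ τ ih =>
        intro h
        have hl := (walk_lt hι hμ hs.1 τ).1
        rw [walk_succ] at h
        split_ifs at h
        · exact ih (by simpa [(hι _ hl).2.1] using (hclo _ h).1)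
        · exact ih (by simpa [(hμ _ hl).2.1] using (hclo _ h).2)
    have hz0 : ∃ σ, walk ι μ (μ 0) σ = 0 := by
      simpa [(hμ 0 h0).2.1] using (hclo (μ 0) ⟨0, rfl⟩).2
    refine umlauf hι hμ hs.1 θ (fun τ => hmin _ ⟨(walk_lt hι hμ hs.1 τ).1, fun σ e => hout τ ⟨σ, e⟩⟩)
      (fun τ => h1 _ (walk_lt hι hμ hs.1 τ).1) (fun τ => h2 _ (walk_lt hι hμ hs.1 τ).1 ?_ ?_)
    · intro e; exact hout τ (e ▸ hz0)
    · intro e
      apply hout τ
      refine ⟨0, ?_⟩
      rw [← (hμ _ (walk_lt hι hμ hs.1 τ).1).2.1, e]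
      rfl
  have hall' : ∀ y < M, ∃ τ < L, walk ι μ (μ 0) τ = y := by
    intro y hy
    obtain ⟨τ, e⟩ := hall y hy
    induction τ using Nat.strong_induction_on with
    | _ τ ih =>
      by_cases h : τ < L
      · exact ⟨τ, h, e⟩
      · exact ih (τ - L) (by omega) (by rw [← hper, ← e]; congr 1; omega)
  have hLM : L = M := by
    rw [← card_range L, ← card_range M]
    refine card_bij (fun a _ => walk ι μ (μ 0) a) ?_ ?_ ?_
    · intro a _; exact mem_range.2 (walk_lt hι hμ hq a).1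
    · intro a ha b hb e; exact hinj a (mem_range.1 ha) b (mem_range.1 hb) e
    · intro y hy
      obtain ⟨τ, h, e⟩ := hall' y (mem_range.1 hy)
      exact ⟨τ, mem_range.2 h, e⟩
  subst hLM
  exact ⟨hL, hinj, hall'⟩

end

end Pool.Agent.Lib.MP_8f75c8_lc
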