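import Mathlib

/-!
Closed meanders as pairs of mutually inverse sequences: the potential `D` and duality.
-/

namespace Pool.Agent.Lib.MP_8f75c8_lc

open Finset

def Btw (a b c : ℕ) : Prop := (a < c ∧ c < b) ∨ (b < c ∧ c < a)

instance (a b c : ℕ) : Decidable (Btw a b c) := by unfold Btw; infer_instance

def sg (g : ℕ) : ℤ := if g % 2 = 0 then 1 else -1

theorem sg_succ (g : ℕ) : sg (g + 1) = - sg g := by
  unfold sg; split_ifs <;> omega

theorem sg_congr {a b : ℕ} (h : a % 2 = b % 2) : sg a = sg b := by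
  unfold sg; rw [h]

theorem sg_ne {a b : ℕ} (h : a % 2 ≠ b % 2) : sg a = - sg b := by
  unfold sg; split_ifs <;> omega

theorem sg_ne_zero (a : ℕ) : sg a ≠ 0 := by
  unfold sg; split_ifs <;> omega

/-- arcs of the same parity do not cross -/
def Mea (L : ℕ) (t : ℕ → ℕ) : Prop :=
  ∀ g < L, ∀ g' < L, g % 2 = g' % 2 →
    (Btw (t g) (t (g + 1)) (t g') ↔ Btw (t g) (t (g + 1)) (t (g' + 1)))

theorem pair_sum (Q : ℕ → Prop) [DecidablePred Q] (lo k : ℕ)
    (h : ∀ g, lo ≤ g → g < lo + 2 * k → g % 2 = lo % 2 → (Q g ↔ Q (g + 1))) :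
    ∑ g ∈ Ico lo (lo + 2 * k), (if Q g then sg g else 0) = 0 := by
  induction k with
  | zero => simp
  | succ k ih =>
    have e : lo + 2 * (k + 1) = lo + 2 * k + 1 + 1 := by ring
    rw [e, sum_Ico_succ_top (by omega), sum_Ico_succ_top (by omega),
      ih fun g h1 h2 h3 => h g h1 (by omega) h3]
    have := h (lo + 2 * k) (by omega) (by omega) (by omega)
    by_cases hq : Q (lo + 2 * k)
    · simp [hq, this.1 hq, sg_succ]
    · have : ¬ Q (lo + 2 * k + 1) := fun h' => hq (this.2 h')
      simp [hq, this]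

theorem pair_sum' (Q : ℕ → Prop) [DecidablePred Q] (lo hi : ℕ) (hp : lo % 2 = hi % 2)
    (h : ∀ g, lo ≤ g → g < hi → g % 2 = lo % 2 → (Q g ↔ Q (g + 1))) :
    ∑ g ∈ Ico lo hi, (if Q g then sg g else 0) = 0 := by
  by_cases hl : lo ≤ hi
  · obtain ⟨k, rfl⟩ : ∃ k, hi = lo + 2 * k := ⟨(hi - lo) / 2, by omega⟩
    exact pair_sum Q lo k h
  · rw [Ico_eq_empty (by omega)]; simp

/-- the potential -/
def D (t : ℕ → ℕ) (τ : ℕ) : ℤ := ∑ g ∈ range τ, if t g < t τ then sg g else 0

theorem btw_sum {L : ℕ} {t : ℕ → ℕ} (hM : Mea L t) {τ : ℕ} (hτ : τ < L)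
    (hext : τ % 2 = 1 → ¬ Btw (t τ) (t (τ + 1)) (t 0)) :
    ∑ g ∈ range τ, (if Btw (t τ) (t (τ + 1)) (t g) then sg g else 0) = 0 := by
  rcases Nat.mod_two_eq_zero_or_one τ with h | h
  · rw [range_eq_Ico]
    exact pair_sum' _ 0 τ (by omega) fun g _ h2 h3 => hM τ hτ g (by omega) (by omega)
  · rw [range_eq_Ico, sum_eq_sum_Ico_succ_bot (by omega), if_neg (hext h), zero_add]
    exact pair_sum' _ 1 τ (by omega) fun g _ h2 h3 => hM τ hτ g (by omega) (by omega)

theorem D_step {L : ℕ} {t : ℕ → ℕ} (hM : Mea L t)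
    (hinj : ∀ a < L, ∀ b < L, t a = t b → a = b) {τ : ℕ} (hτ : τ + 1 < L)
    (hext : τ % 2 = 1 → ¬ Btw (t τ) (t (τ + 1)) (t 0)) :
    D t (τ + 1) = D t τ + if t τ < t (τ + 1) then sg τ else 0 := by
  have hb := btw_sum hM (by omega : τ < L) hext
  unfold D
  rw [sum_range_succ]
  congr 1
  by_cases hlt : t τ < t (τ + 1)
  · refine Eq.trans ?_ ((congrArg (_ + ·) hb).trans (add_zero _))
    rw [← sum_add_distrib]
    refine sum_congr rfl fun g hg => ?_
    have hg := mem_range.1 hg
    have h1 : t g ≠ t τ := fun e => by have := hinj g (by omega) τ (by omega) e; omega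
    unfold Btw
    split_ifs <;> omega
  · refine Eq.trans ((congrArg (_ + ·) hb).trans (add_zero _)).symm ?_
    rw [← sum_add_distrib]
    refine sum_congr rfl fun g hg => ?_
    have hg := mem_range.1 hg
    have h1 : t g ≠ t (τ + 1) := fun e => by have := hinj g (by omega) (τ + 1) (by omega) e; omega
    unfold Btw
    split_ifs <;> omega

theorem D_last {L : ℕ} {t : ℕ → ℕ} (hM : Mea L t)
    (hinj : ∀ a < L, ∀ b < L, t a = t b → a = b) {τ : ℕ} (hτ : τ + 1 = L) (h0 : 0 < τ)
    (hL : t L = t 0) (hmin : ∀ g < L, t 0 ≤ t g) : D t τ = 1 := by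
  have hb := btw_sum hM (by omega : τ < L) (fun _ => by
    rw [hτ, hL]; unfold Btw; omega)
  rw [hτ, hL, range_eq_Ico, sum_eq_sum_Ico_succ_bot h0, if_neg (by unfold Btw; omega),
    zero_add] at hb
  unfold D
  have h1 : t 0 < t τ := by
    have := hmin τ (by omega)
    have h1 : t 0 ≠ t τ := fun e => by have := hinj 0 (by omega) τ (by omega) e; omega
    omega
  rw [range_eq_Ico, sum_eq_sum_Ico_succ_bot h0, if_pos h1]
  refine Eq.trans ?_ ((congrArg ((1 : ℤ) + ·) hb).trans (add_zero _))
  congr 1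
  refine sum_congr rfl fun g hg => ?_
  have hg := mem_Ico.1 hg
  have h2 : t 0 ≠ t g := fun e => by have := hinj 0 (by omega) g (by omega) e; omega
  have := hmin g (by omega)
  unfold Btw
  split_ifs <;> omega

/-- a potential with the prescribed increments is given by `D` -/
theorem pot_eq {L : ℕ} {t : ℕ → ℕ} (hM : Mea L t)
    (hinj : ∀ a < L, ∀ b < L, t a = t b → a = b)
    (hext : ∀ τ, τ + 1 < L → τ % 2 = 1 → ¬ Btw (t τ) (t (τ + 1)) (t 0)) (φ : ℕ → ℤ)
    (hφ : ∀ τ, τ + 1 < L → φ (τ + 1) = φ τ + if t τ < t (τ + 1) then sg τ else - sg τ) :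
    ∀ τ < L, φ τ = φ 0 + 2 * D t τ - if τ % 2 = 0 then 0 else 1 := by
  intro τ
  induction τ with
  | zero => intro _; simp [D]
  | succ τ ih =>
    intro h
    rw [hφ τ h, ih (by omega), D_step hM hinj h (hext τ h)]
    unfold sg
    split_ifs <;> omega

/-- the potential is symmetric -/
theorem D_dual {M : ℕ} {t x : ℕ → ℕ} (ht : ∀ g < M, t g < M ∧ x (t g) = g)
    (hx : ∀ τ < M, x τ < M ∧ t (x τ) = τ) (hp : ∀ g < M, (t g + g) % 2 = 1) {g : ℕ}
    (hg : g < M) : D x (t g) = - D t g := by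
  unfold D
  rw [← sum_filter, ← sum_filter, ← sum_neg_distrib]
  symm
  refine sum_bij' (fun a _ => t a) (fun b _ => x b) ?_ ?_ ?_ ?_ ?_
  · intro a ha
    simp only [mem_filter, mem_range] at ha ⊢
    rw [(ht a (by omega)).2, (ht g hg).2]
    exact ⟨ha.2, ha.1⟩
  · intro b hb
    simp only [mem_filter, mem_range] at hb ⊢
    have := (ht g hg)
    rw [(hx b (by omega)).2]
    rw [this.2] at hb
    exact ⟨hb.2, hb.1⟩
  · intro a ha
    simp only [mem_filter, mem_range] at ha
    exact (ht a (by omega)).2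
  · intro b hb
    simp only [mem_filter, mem_range] at hb
    have := (ht g hg)
    exact (hx b (by omega)).2
  · intro a ha
    simp only [mem_filter, mem_range] at ha
    have := hp a (by omega)
    exact (sg_ne (a := t a) (b := a) (by omega)).symm

section duality

variable {M c : ℕ} {t : ℕ → ℕ}

def H (t : ℕ → ℕ) (a b k : ℕ) : ℤ := ∑ y ∈ Ico (a + 1) b, if t y < k then sg y else 0

def Bs (t : ℕ → ℕ) (a b u v : ℕ) : ℤ := ∑ y ∈ Ico (a + 1) b, if Btw u v (t y) then sg y else 0

theorem H_succ (hinj : ∀ a < M, ∀ b < M, t a = t b → a = b) {a b y : ℕ} (hb : b < M)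
    (hy : y < M) : H t a b (t y + 1) = H t a b (t y) + if a < y ∧ y < b then sg y else 0 := by
  unfold H
  have : (if a < y ∧ y < b then sg y else 0) = ∑ z ∈ Ico (a + 1) b, if z = y then sg z else 0 := by
    rw [sum_ite_eq']
    simp only [mem_Ico]
    rfl
  rw [this, ← sum_add_distrib]
  refine sum_congr rfl fun z hz => ?_
  have hz := mem_Ico.1 hz
  by_cases e : z = y
  · subst e; simp
  · have : t z ≠ t y := fun e' => e (hinj z (by omega) y hy e')
    split_ifs <;> omega

theorem H_diff {a b u v : ℕ} (h : u < v) : H t a b v = H t a b (u + 1) + Bs t a b u v := by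
  unfold H Bs
  rw [← sum_add_distrib]
  refine sum_congr rfl fun z _ => ?_
  unfold Btw
  split_ifs <;> omega

theorem Bs_symm (a b u v : ℕ) : Bs t a b u v = Bs t a b v u := by
  unfold Bs
  refine sum_congr rfl fun z _ => ?_
  unfold Btw
  split_ifs <;> omega

theorem Bs_odd (hM : Mea M t) {a b y : ℕ} (hb : b < M) (hy : y < M) (hab : a % 2 ≠ b % 2)
    (hya : y % 2 ≠ a % 2) : Bs t a b (t y) (t (y + 1)) = 0 :=
  pair_sum' _ (a + 1) b (by omega) fun g _ h2 h3 => hM y hy g (by omega) (by omega)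

theorem Bs_even (hM : Mea M t) {a b y : ℕ} (hb : b < M) (hy : y < M) (hab : a % 2 ≠ b % 2)
    (hlt : a < b) (hya : y % 2 = a % 2) : Bs t a b (t y) (t (y + 1)) =
      (if Btw (t y) (t (y + 1)) (t b) then sg a else 0) -
        (if Btw (t y) (t (y + 1)) (t a) then sg a else 0) := by
  have := pair_sum' (fun g => Btw (t y) (t (y + 1)) (t g)) a (b + 1) (by omega)
    fun g _ h2 h3 => hM y hy g (by omega) (by omega)
  rw [sum_eq_sum_Ico_succ_bot (by omega), sum_Ico_succ_top (by omega),
    sg_ne (a := b) (b := a) (by omega)] at this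
  unfold Bs
  split_ifs at this ⊢ <;> omega

theorem dual_core (hM : Mea M t) (hinj : ∀ a < M, ∀ b < M, t a = t b → a = b)
    (hlt : ∀ g < M, t g < M) (hp : ∀ g < M, (t g + g) % 2 = c) (he : M % 2 = 0)
    {a b j j' : ℕ} (hab : a < b) (hb : b < M)
    (hj : (j + 1 < M ∧ j' = j + 1) ∨ (j + 1 = M ∧ j' = 0))
    (hor : (t a = j ∧ t b = j') ∨ (t a = j' ∧ t b = j)) :
    (∀ y < M, ¬ (a < y ∧ y < b) → H t a b (t y) = H t a b (t a)) ∧
    (∀ y, a < y → y < b → H t a b (if t y % 2 = j % 2 then t y + 1 else t y) ≠ H t a b (t a)) ∧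
    H t a b M = 0 := by
  have hpar : a % 2 ≠ b % 2 := by
    have := hp a (by omega); have := hp b hb; omega
  have hne : ∀ y < M, ∀ z < M, y ≠ z → t y ≠ t z := fun y hy z hz h e => h (hinj y hy z hz e)
  have hHM : H t a b M = 0 := by
    have := pair_sum' (fun _ => True) (a + 1) b (by omega) (by simp)
    unfold H
    rw [← this]
    refine sum_congr rfl fun z hz => ?_
    have hz := mem_Ico.1 hz
    simp [hlt z (by omega)]
  have hH0 : H t a b 0 = 0 := by simp [H]
  have hHab : H t a b (t b) = H t a b (t a) := by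
    have h1 := H_succ hinj hb (a := a) (y := a) (by omega)
    have h2 := H_succ hinj hb (a := a) (y := b) (by omega)
    rw [if_neg (by omega), add_zero] at h1 h2
    rcases hj with ⟨h3, rfl⟩ | ⟨h3, rfl⟩ <;> rcases hor with ⟨e1, e2⟩ | ⟨e1, e2⟩
    · rw [← h1, e1, e2]
    · rw [← h2, e1, e2]
    · rw [← h1, e1, e2, h3, hHM, hH0]
    · rw [← h2, e1, e2, h3, hHM, hH0]
  -- the sum over an arc that avoids `a` and `b`
  have hB : ∀ y, y + 1 < M → (y % 2 = a % 2 → y ≠ a ∧ y + 1 ≠ b ∧ y ≠ b ∧ y + 1 ≠ a) →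
      Bs t a b (t y) (t (y + 1)) = 0 := by
    intro y hy h
    by_cases hya : y % 2 = a % 2
    · rw [Bs_even hM hb (by omega) hpar hab hya]
      obtain ⟨h1, h2, h3, h4⟩ := h hya
      have := hne y (by omega) a (by omega) h1
      have := hne (y + 1) (by omega) b (by omega) h2
      have := hne y (by omega) b (by omega) h3
      have := hne (y + 1) (by omega) a (by omega) h4
      have := hlt y (by omega)
      have := hlt (y + 1) (by omega)
      unfold Btw
      split_ifs <;> omega
    · exact Bs_odd hM hb (by omega) hpar hya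
  have hstep : ∀ y, y + 1 < M → (y + 1 ≤ a ∨ b ≤ y) → H t a b (t (y + 1)) = H t a b (t y) := by
    intro y hy h
    have h0 := hB y hy (by omega)
    have h1 := H_succ hinj hb (a := a) (y := y) (by omega)
    have h2 := H_succ hinj hb (a := a) (y := y + 1) (by omega)
    rw [if_neg (by omega), add_zero] at h1 h2
    rcases lt_or_gt_of_ne (hne y (by omega) (y + 1) hy (by omega)) with h3 | h3
    · rw [H_diff h3, h0, h1, add_zero]
    · rw [H_diff h3, Bs_symm, h0, h2, add_zero]
  refine ⟨?_, ?_, hHM⟩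
  · intro y hy h
    rcases le_or_gt y a with h1 | h1
    · obtain ⟨k, hk⟩ : ∃ k, a = y + k := ⟨a - y, by omega⟩
      clear h hy h1
      induction k generalizing y with
      | zero => rw [hk]; rfl
      | succ k ih => rw [← ih (y + 1) (by omega), hstep y (by omega) (by omega)]
    · obtain ⟨k, hk⟩ : ∃ k, y = b + k := ⟨y - b, by omega⟩
      clear h h1
      induction k generalizing y with
      | zero => rw [hk]; exact hHab
      | succ k ih =>
        rw [← ih (b + k) (by omega) rfl, hk, ← add_assoc, hstep (b + k) (by omega) (by omega)]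
  · intro y h1 h2
    obtain ⟨k, hk⟩ : ∃ k, y = a + 1 + k := ⟨y - a - 1, by omega⟩
    clear h1
    induction k generalizing y with
    | zero =>
      obtain rfl : y = a + 1 := hk
      have h0 := Bs_even hM hb (y := a) (by omega) hpar hab rfl
      have h3 := H_succ hinj hb (a := a) (y := a) (by omega)
      have h4 := H_succ hinj hb (a := a) (y := a + 1) (by omega)
      rw [if_neg (by omega), add_zero] at h3
      rw [if_pos (by omega), sg_succ] at h4
      have := hne a (by omega) (a + 1) (by omega) (by omega)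
      have := hne b (by omega) (a + 1) (by omega) (by omega)
      have := hp a (by omega)
      have := hp (a + 1) (by omega)
      have := hlt a (by omega)
      have := hlt (a + 1) (by omega)
      have hs := sg_ne_zero a
      rcases lt_or_gt_of_ne (hne a (by omega) (a + 1) (by omega) (by omega)) with h5 | h5
      · have h6 := H_diff (t := t) (a := a) (b := b) h5
        unfold Btw at h0
        split_ifs at h0 ⊢ <;> omega
      · have h6 := H_diff (t := t) (a := a) (b := b) h5
        rw [Bs_symm] at h6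
        unfold Btw at h0
        split_ifs at h0 ⊢ <;> omega
    | succ k ih =>
      have ih := ih (a + 1 + k) (by omega) rfl
      obtain rfl : y = a + 1 + k + 1 := hk
      generalize hz : a + 1 + k = z at *
      have h0 := hB z (by omega) (by omega)
      have h3 := H_succ hinj hb (a := a) (y := z) (by omega)
      have h4 := H_succ hinj hb (a := a) (y := z + 1) (by omega)
      rw [if_pos (by omega)] at h3
      rw [if_pos (by omega), sg_succ] at h4
      have := hp z (by omega)
      have := hp (z + 1) (by omega)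
      rcases lt_or_gt_of_ne (hne z (by omega) (z + 1) (by omega) (by omega)) with h5 | h5
      · have h6 := H_diff (t := t) (a := a) (b := b) h5
        split_ifs at ih ⊢ <;> omega
      · have h6 := H_diff (t := t) (a := a) (b := b) h5
        rw [Bs_symm] at h6
        split_ifs at ih ⊢ <;> omega

theorem duality {x : ℕ → ℕ} (hM : Mea M t) (ht : ∀ g < M, t g < M ∧ x (t g) = g)
    (hx : ∀ τ < M, x τ < M ∧ t (x τ) = τ) (hp : ∀ g < M, (t g + g) % 2 = c) (he : M % 2 = 0)
    (hxM : x M = x 0) : Mea M x := by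
  have hinj : ∀ a < M, ∀ b < M, t a = t b → a = b := fun a ha b hb e => by
    rw [← (ht a ha).2, e, (ht b hb).2]
  have nxt : ∀ j < M, ∃ j', ((j + 1 < M ∧ j' = j + 1) ∨ (j + 1 = M ∧ j' = 0)) ∧
      x (j + 1) = x j' := by
    intro j hj
    by_cases h : j + 1 < M
    · exact ⟨j + 1, Or.inl ⟨h, rfl⟩, rfl⟩
    · exact ⟨0, Or.inr ⟨by omega, rfl⟩, by rw [show j + 1 = M by omega, hxM]⟩
  intro j hj τ hτ hpar
  obtain ⟨j', hj', e1⟩ := nxt j hj
  obtain ⟨τ', hτ', e2⟩ := nxt τ hτ
  rw [e1, e2]
  have key : ∀ a b, a < b → b < M → ((t a = j ∧ t b = j') ∨ (t a = j' ∧ t b = j)) →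
      ((a < x τ ∧ x τ < b) ↔ (a < x τ' ∧ x τ' < b)) := by
    intro a b hab hb hor
    obtain ⟨h1, h2, h3⟩ := dual_core hM hinj (fun g hg => (ht g hg).1) hp he hab hb hj' hor
    have y1 := hx τ hτ
    have y2 := hx τ' (by omega)
    have h4 := H_succ hinj hb (a := a) y1.1
    have h5 : H t a b τ' = H t a b (τ + 1) := by
      rcases hτ' with ⟨_, rfl⟩ | ⟨e, rfl⟩
      · rfl
      · rw [e, h3]; simp [H]
    constructor
    · intro h
      by_contra h'
      have h6 := h1 _ y2.1 h'
      have h7 := h2 _ h.1 h.2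
      rw [y1.2, if_pos hpar.symm] at h7
      rw [y2.2] at h6
      exact h7 (h5.symm.trans h6)
    · intro h
      by_contra h'
      have h6 := h1 _ y1.1 h'
      have h7 := h2 _ h.1 h.2
      rw [y2.2, if_neg (by omega)] at h7
      rw [if_neg h', add_zero, h6, y1.2] at h4
      exact h7 (h5.trans h4)
  have y1 := hx j hj
  have y2 := hx j' (by omega)
  have hne : x j ≠ x j' := fun e => by
    have : j = j' := by rw [← y1.2, e, y2.2]
    omega
  rcases lt_or_gt_of_ne hne with h | h
  · have := key _ _ h y2.1 (Or.inl ⟨y1.2, y2.2⟩)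
    unfold Btw; omega
  · have := key _ _ h y1.1 (Or.inr ⟨y2.2, y1.2⟩)
    unfold Btw; omega

end duality

end Pool.Agent.Lib.MP_8f75c8_lc
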